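import Pool.Agent.H75.SG.Defs

/-!
# Module Bas: elementary closure properties of small sets

`union`: `lim` with `f = 0`, `W 0 = S`, `W 1 = T`, `W n = ∅` for `n ≥ 2`, then `sub`.  `singleton`: `lim` with all
`W n = ∅`.  `bdd`: induction (`hull`: for `t ∈ Hull D T` pick by Hahn-Banach `Λ` in the bidual with `‖Λ‖ ≤ 1` and
`Λ t = ‖t‖`).  `lin`: `a s + b t` lies in `Hull (|a| + |b|) (S ∪ T)`.
-/

namespace Pool.Agent.H75.SG

variable {X : Type} [NormedAddCommGroup X] [NormedSpace ℝ X]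

theorem subset_hull (T : Set (X →L[ℝ] ℝ)) : T ⊆ Hull 1 T := by
  intro t ht Λ c hc h
  rw [one_mul]
  exact h t ht

theorem hull_mono {S T : Set (X →L[ℝ] ℝ)} (D : ℝ) (h : S ⊆ T) : Hull D S ⊆ Hull D T := by
  intro t ht Λ c hc h'
  exact ht Λ c hc fun g hg => h' g (h hg)

theorem Small.bdd {S : Set (X →L[ℝ] ℝ)} (hS : Small S) : ∃ M : ℝ, 0 ≤ M ∧ ∀ t ∈ S, ‖t‖ ≤ M := by
  induction hS with
  | empty => exact ⟨0, le_rfl, fun t ht => ht.elim⟩
  | sub _ hst ih =>
    obtain ⟨M, h0, h⟩ := ih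
    exact ⟨M, h0, fun t ht => h t (hst ht)⟩
  | @hull T D _ ih =>
    obtain ⟨M, h0, h⟩ := ih
    refine ⟨|D| * M, by positivity, fun t ht => ?_⟩
    obtain ⟨Λ, hΛ, hΛt⟩ := exists_dual_vector'' ℝ t
    have h1 : |Λ t| ≤ D * M := ht Λ M h0 fun g hg => by
      calc |Λ g| = ‖Λ g‖ := rfl
        _ ≤ ‖Λ‖ * ‖g‖ := Λ.le_opNorm g
        _ ≤ 1 * M := by
          have := h g hg
          gcongr
        _ = M := one_mul M
    have h2 : Λ t = ‖t‖ := by
      rw [hΛt]
      rfl
    rw [h2, abs_of_nonneg (norm_nonneg t)] at h1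
    refine h1.trans ?_
    have := le_abs_self D
    gcongr
  | @appr S T _ h2 ih =>
    obtain ⟨M, h0, h⟩ := ih 1 one_pos
    refine ⟨M + 1, by positivity, fun s hs => ?_⟩
    obtain ⟨t, ht, hst⟩ := h2 1 one_pos s hs
    have h3 := h t ht
    calc ‖s‖ = ‖t + (s - t)‖ := by rw [add_sub_cancel]
      _ ≤ ‖t‖ + ‖s - t‖ := norm_add_le _ _
      _ ≤ M + 1 := by linarith
  | @lim f W M _ hb _ _ =>
    refine ⟨|M| + ‖f‖, by positivity, fun t ht => ?_⟩
    rcases Set.mem_insert_iff.mp ht with rfl | ht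
    · have := abs_nonneg M
      linarith
    · obtain ⟨n, hn⟩ := Set.mem_iUnion.mp ht
      have h1 := hb n t hn
      have h2 := le_abs_self M
      have h3 := norm_nonneg f
      linarith

theorem Small.singleton (f : X →L[ℝ] ℝ) : Small {f} := by
  have h := Small.lim (f := f) (W := fun _ => (∅ : Set (X →L[ℝ] ℝ))) 0 (fun _ => Small.empty)
    (fun n g hg => hg.elim) (fun x ε _ => ⟨0, fun n _ g hg => hg.elim⟩)
  exact h.sub (by
    intro t ht
    exact Set.mem_insert_iff.mpr (Or.inl ht))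

theorem Small.union {S T : Set (X →L[ℝ] ℝ)} (hS : Small S) (hT : Small T) : Small (S ∪ T) := by
  obtain ⟨M, hM0, hM⟩ := hS.bdd
  obtain ⟨N, hN0, hN⟩ := hT.bdd
  have h := Small.lim (f := (0 : X →L[ℝ] ℝ))
    (W := fun n => if n = 0 then S else if n = 1 then T else ∅) (M + N)
    (fun n => by
      by_cases h0 : n = 0
      · simp only [h0, if_true]
        exact hS
      · by_cases h1 : n = 1
        · simp only [h0, h1, if_false, if_true]
          exact hT
        · simp only [h0, h1, if_false]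
          exact Small.empty)
    (fun n g hg => by
      by_cases h0 : n = 0
      · simp only [h0, if_true] at hg
        linarith [hM g hg]
      · by_cases h1 : n = 1
        · simp only [h1, if_true] at hg
          linarith [hN g hg]
        · simp only [h0, h1, if_false] at hg
          exact hg.elim)
    (fun x ε _ => ⟨2, fun n hn g hg => by
      have h0 : n ≠ 0 := by omega
      have h1 : n ≠ 1 := by omega
      simp only [h0, h1, if_false] at hg
      exact hg.elim⟩)
  refine h.sub ?_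
  intro t ht
  refine Set.mem_insert_iff.mpr (Or.inr (Set.mem_iUnion.mpr ?_))
  rcases ht with ht | ht
  · exact ⟨0, by simpa using ht⟩
  · exact ⟨1, by simpa using ht⟩

/-- linear combinations -/
theorem Small.lin {S T : Set (X →L[ℝ] ℝ)} (hS : Small S) (hT : Small T) (a b : ℝ) :
    Small {u | ∃ s ∈ S, ∃ t ∈ T, u = a • s + b • t} := by
  refine ((hS.union hT).hull (|a| + |b|)).sub ?_
  rintro u ⟨s, hs, t, ht, rfl⟩ Λ c hc h
  have h1 := h s (Or.inl hs)
  have h2 := h t (Or.inr ht)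
  rw [map_add, map_smul, map_smul, smul_eq_mul, smul_eq_mul]
  calc |a * Λ s + b * Λ t| ≤ |a * Λ s| + |b * Λ t| := abs_add_le _ _
    _ = |a| * |Λ s| + |b| * |Λ t| := by rw [abs_mul, abs_mul]
    _ ≤ |a| * c + |b| * c := by gcongr
    _ = (|a| + |b|) * c := by ring

/-- finite sets are small -/
theorem Small.finite {S : Set (X →L[ℝ] ℝ)} (hS : S.Finite) : Small S := by
  induction S, hS using Set.Finite.induction_on with
  | empty => exact Small.empty
  | @insert a s _ _ ih => exact ((Small.singleton a).union ih).sub (by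
      intro t ht
      rcases Set.mem_insert_iff.mp ht with rfl | ht
      · exact Or.inl rfl
      · exact Or.inr ht)

/-- a finite union of small sets is small -/
theorem Small.iUnion_lt {W : ℕ → Set (X →L[ℝ] ℝ)} (n : ℕ) (h : ∀ i, i < n → Small (W i)) :
    Small {u | ∃ i, i < n ∧ u ∈ W i} := by
  induction n with
  | zero => exact Small.empty.sub (by rintro u ⟨i, hi, _⟩; omega)
  | succ n ih =>
    have h1 := ih fun i hi => h i (by omega)
    refine (h1.union (h n (by omega))).sub ?_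
    rintro u ⟨i, hi, hu⟩
    rcases Nat.lt_succ_iff_lt_or_eq.mp hi with h2 | rfl
    · exact Or.inl ⟨i, h2, hu⟩
    · exact Or.inr hu

/-- `lim` for sets indexed by `ℕ`, without the limit functional -/
theorem Small.seq {f : X →L[ℝ] ℝ} {W : ℕ → Set (X →L[ℝ] ℝ)} (M : ℝ) (h : ∀ n, Small (W n))
    (hb : ∀ n, ∀ g ∈ W n, ‖g‖ ≤ M)
    (hl : ∀ x : X, ∀ ε : ℝ, 0 < ε → ∃ n₀ : ℕ, ∀ n, n₀ ≤ n → ∀ g ∈ W n, |g x - f x| ≤ ε) :
    Small (⋃ n, W n) :=
  (Small.lim M h hb hl).sub (Set.subset_insert _ _)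

end Pool.Agent.H75.SG
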