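import Pool.Agent.H75.SG.NrG

/-!
# Module Clo: the weak* closure of a small set is small

Induction over `Small`.  Step `hull`: the elements of the weak* closure of `Hull D T` are dominated by the support function
of `T`, and the closure of `T` is small by induction, hence norm separable, so `hull_of_closed'` applies.
-/

namespace Pool.Agent.H75.SG

open Set Filter Topology TopologicalSpace

variable {X : Type} [NormedAddCommGroup X] [NormedSpace ℝ X]

/-- the weak* closure -/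
def WCl (S : Set (X →L[ℝ] ℝ)) : Set (X →L[ℝ] ℝ) :=
  {t | StrongDual.toWeakDual t ∈ closure {f : WeakDual ℝ X | WeakDual.toStrongDual f ∈ S}}

theorem mem_wcl {S : Set (X →L[ℝ] ℝ)} {t : X →L[ℝ] ℝ} : t ∈ WCl S ↔
    StrongDual.toWeakDual t ∈ closure {f : WeakDual ℝ X | WeakDual.toStrongDual f ∈ S} := Iff.rfl

theorem subset_wcl (S : Set (X →L[ℝ] ℝ)) : S ⊆ WCl S := fun t ht => by
  rw [mem_wcl]
  exact subset_closure (show WeakDual.toStrongDual (StrongDual.toWeakDual t) ∈ S from ht)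

theorem wcl_mono {S T : Set (X →L[ℝ] ℝ)} (h : S ⊆ T) : WCl S ⊆ WCl T := fun _ ht => by
  rw [mem_wcl] at ht ⊢
  exact closure_mono (s := {f : WeakDual ℝ X | WeakDual.toStrongDual f ∈ S})
    (t := {f : WeakDual ℝ X | WeakDual.toStrongDual f ∈ T}) (fun _ hf => h hf) ht

theorem isClosed_wcl (S : Set (X →L[ℝ] ℝ)) :
    IsClosed {f : WeakDual ℝ X | WeakDual.toStrongDual f ∈ WCl S} :=
  isClosed_closure

theorem wcl_le {S : Set (X →L[ℝ] ℝ)} {x : X} {b : ℝ} (h : ∀ g ∈ S, |g x| ≤ b) :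
    ∀ t ∈ WCl S, |t x| ≤ b := by
  intro t ht
  have h1 : IsClosed {f : WeakDual ℝ X | |f x| ≤ b} :=
    isClosed_le (WeakDual.eval_continuous x).abs continuous_const
  exact closure_minimal (s := {f : WeakDual ℝ X | WeakDual.toStrongDual f ∈ S})
    (fun f hf => h _ hf) h1 (mem_wcl.mp ht)

theorem wcl_sub_le {S : Set (X →L[ℝ] ℝ)} {x : X} {a b : ℝ} (h : ∀ g ∈ S, |g x - a| ≤ b) :
    ∀ t ∈ WCl S, |t x - a| ≤ b := by
  intro t ht
  have h1 : IsClosed {f : WeakDual ℝ X | |f x - a| ≤ b} :=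
    isClosed_le ((WeakDual.eval_continuous x).sub continuous_const).abs continuous_const
  exact closure_minimal (s := {f : WeakDual ℝ X | WeakDual.toStrongDual f ∈ S})
    (fun f hf => h _ hf) h1 (mem_wcl.mp ht)

theorem wcl_bdd {S : Set (X →L[ℝ] ℝ)} {r : ℝ} (h : ∀ g ∈ S, ‖g‖ ≤ r) :
    ∀ t ∈ WCl S, ‖t‖ ≤ r := by
  intro t ht
  have h1 : IsClosed (WeakDual.toStrongDual ⁻¹' Metric.closedBall (0 : X →L[ℝ] ℝ) r) :=
    WeakDual.isClosed_closedBall 0 r
  have h2 := closure_minimal (s := {f : WeakDual ℝ X | WeakDual.toStrongDual f ∈ S})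
    (fun f hf => by
      rw [Set.mem_preimage, mem_closedBall_zero_iff]
      exact h _ hf) h1 (mem_wcl.mp ht)
  exact mem_closedBall_zero_iff.mp (Set.mem_preimage.mp h2)

theorem wcl_hull {T : Set (X →L[ℝ] ℝ)} {r : ℝ} (hr : ∀ g ∈ T, ‖g‖ ≤ r)
    (hsep : IsSeparable (WCl T)) (D : ℝ) : WCl (Hull D T) ⊆ Hull |D| (WCl T) := by
  intro t ht
  refine hull_of_closed' (isClosed_wcl T) (wcl_bdd hr) hsep (abs_nonneg D) t ?_
  intro x b hb h
  refine wcl_le (fun s hs => ?_) t ht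
  have h1 := hs (ContinuousLinearMap.apply ℝ ℝ x) b hb (fun g hg => h g (subset_wcl T hg))
  refine (h1 : |s x| ≤ D * b).trans ?_
  gcongr
  exact le_abs_self D

theorem wcl_appr {S T : Set (X →L[ℝ] ℝ)} {M ρ : ℝ} (hM : ∀ g ∈ T, ‖g‖ ≤ M)
    (h : ∀ s ∈ S, ∃ t ∈ T, ‖s - t‖ ≤ ρ) : ∀ s ∈ WCl S, ∃ t ∈ WCl T, ‖s - t‖ ≤ ρ := by
  classical
  intro s hs
  obtain ⟨u, hu, hus⟩ := mem_closure_iff_ultrafilter.mp (mem_wcl.mp hs)
  let a : WeakDual ℝ X → WeakDual ℝ X := fun f =>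
    if hf : WeakDual.toStrongDual f ∈ S then StrongDual.toWeakDual (h _ hf).choose else 0
  have ha : ∀ f : WeakDual ℝ X, WeakDual.toStrongDual f ∈ S →
      WeakDual.toStrongDual (a f) ∈ T ∧
        ‖WeakDual.toStrongDual f - WeakDual.toStrongDual (a f)‖ ≤ ρ := by
    intro f hf
    simp only [a]
    rw [dif_pos hf]
    exact (h _ hf).choose_spec
  obtain ⟨t, -, ht⟩ := (WeakDual.isCompact_closedBall (0 : X →L[ℝ] ℝ) M).ultrafilter_le_nhds
    (u.map a) (by
      rw [le_principal_iff]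
      refine Filter.mem_map.mpr ?_
      filter_upwards [hu] with f hf
      refine Set.mem_preimage.mpr (Set.mem_preimage.mpr ?_)
      rw [mem_closedBall_zero_iff]
      exact hM _ (ha f hf).1)
  have ht' : Tendsto a u (𝓝 t) := ht
  refine ⟨WeakDual.toStrongDual t, ?_, ?_⟩
  · rw [mem_wcl]
    change t ∈ closure {f : WeakDual ℝ X | WeakDual.toStrongDual f ∈ T}
    refine mem_closure_of_tendsto ht' ?_
    filter_upwards [hu] with f hf
    exact (ha f hf).1
  · have hρ : 0 ≤ ρ := by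
      obtain ⟨f, hf⟩ := u.nonempty_of_mem hu
      exact (norm_nonneg _).trans (ha f hf).2
    refine ContinuousLinearMap.opNorm_le_bound _ hρ fun x => ?_
    have h1 : Tendsto (fun f : WeakDual ℝ X => f x - (a f) x) u
        (𝓝 ((StrongDual.toWeakDual s) x - t x)) :=
      (((WeakDual.eval_continuous x).tendsto _).mono_left hus).sub
        (((WeakDual.eval_continuous x).tendsto _).comp ht')
    have h2 : ∀ᶠ f in (u : Filter (WeakDual ℝ X)), |f x - (a f) x| ≤ ρ * ‖x‖ := by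
      filter_upwards [hu] with f hf
      calc |f x - (a f) x|
          = ‖(WeakDual.toStrongDual f - WeakDual.toStrongDual (a f)) x‖ := rfl
        _ ≤ ‖WeakDual.toStrongDual f - WeakDual.toStrongDual (a f)‖ * ‖x‖ :=
          ContinuousLinearMap.le_opNorm _ _
        _ ≤ ρ * ‖x‖ := by
          have := (ha f hf).2
          gcongr
    exact le_of_tendsto h1.abs h2

theorem wcl_lim {f : X →L[ℝ] ℝ} {W : ℕ → Set (X →L[ℝ] ℝ)}
    (h : ∀ x : X, ∀ ε : ℝ, 0 < ε → ∃ n₀ : ℕ, ∀ n, n₀ ≤ n → ∀ g ∈ W n, |g x - f x| ≤ ε) :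
    WCl (insert f (⋃ n, W n)) ⊆ insert f (⋃ n, WCl (W n)) := by
  intro t ht
  by_contra hcon
  rw [Set.mem_insert_iff, not_or] at hcon
  obtain ⟨hne, hnW⟩ := hcon
  apply hne
  have h1 : ∀ N : ℕ, t ∈ WCl (⋃ n, ⋃ (_ : N ≤ n), W n) := by
    intro N
    have h2 : {g : WeakDual ℝ X | WeakDual.toStrongDual g ∈ insert f (⋃ n, W n)} ⊆
        {StrongDual.toWeakDual f} ∪ ((⋃ n ∈ Finset.range N,
          {g : WeakDual ℝ X | WeakDual.toStrongDual g ∈ W n}) ∪
          {g : WeakDual ℝ X | WeakDual.toStrongDual g ∈ ⋃ n, ⋃ (_ : N ≤ n), W n}) := by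
      intro g hg
      rcases Set.mem_insert_iff.mp hg with hg | hg
      · exact Or.inl (by
          rw [Set.mem_singleton_iff, ← hg]
          rfl)
      · obtain ⟨n, hn⟩ := Set.mem_iUnion.mp hg
        rcases lt_or_ge n N with hnN | hnN
        · exact Or.inr (Or.inl (Set.mem_iUnion₂.mpr ⟨n, Finset.mem_range.mpr hnN, hn⟩))
        · exact Or.inr (Or.inr (Set.mem_iUnion₂.mpr ⟨n, hnN, hn⟩))
    have h3 := closure_mono h2 (mem_wcl.mp ht)
    rw [closure_union, closure_union, Finset.closure_biUnion, closure_singleton] at h3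
    rcases h3 with h3 | h3 | h3
    · exact absurd (StrongDual.toWeakDual.injective h3) hne
    · obtain ⟨n, _, hn⟩ := Set.mem_iUnion₂.mp h3
      exact absurd (Set.mem_iUnion.mpr ⟨n, hn⟩) hnW
    · exact h3
  ext x
  have h2 : |t x - f x| ≤ 0 := le_of_forall_pos_le_add fun ε hε => by
    rw [zero_add]
    obtain ⟨n₀, hn₀⟩ := h x ε hε
    refine wcl_sub_le (fun g hg => ?_) t (h1 n₀)
    obtain ⟨n, hn, hg⟩ := Set.mem_iUnion₂.mp hg
    exact hn₀ n hn g hg
  exact sub_eq_zero.mp (abs_eq_zero.mp (le_antisymm h2 (abs_nonneg _)))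

theorem Small.wcl {S : Set (X →L[ℝ] ℝ)} (hS : Small S) : Small (WCl S) := by
  induction hS with
  | empty =>
    refine Small.empty.sub ?_
    intro t ht
    have h1 : {f : WeakDual ℝ X | WeakDual.toStrongDual f ∈ (∅ : Set (X →L[ℝ] ℝ))} = ∅ := rfl
    rw [mem_wcl, h1, closure_empty] at ht
    exact ht
  | sub _ hst ih => exact ih.sub (wcl_mono hst)
  | @hull T D hT ih =>
    obtain ⟨r, hr⟩ := hT.bdd
    exact (ih.hull |D|).sub (wcl_hull hr.2 ih.isSeparable D)
  | @appr S T hT h2 ih =>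
    refine Small.appr (fun ρ => WCl (T ρ)) ih ?_
    intro ρ hρ
    obtain ⟨r, hr⟩ := (hT ρ hρ).bdd
    exact wcl_appr hr.2 (h2 ρ hρ)
  | @lim f W M _ hb hl ih =>
    refine (Small.lim (f := f) (W := fun n => WCl (W n)) M ih (fun n => wcl_bdd (hb n)) ?_).sub
      (wcl_lim hl)
    intro x ε hε
    obtain ⟨n₀, hn₀⟩ := hl x ε hε
    exact ⟨n₀, fun n hn => wcl_sub_le (hn₀ n hn)⟩

end Pool.Agent.H75.SG
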