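import Mathlib

/-!
# Module Scat: induction over a countable compact Hausdorff space

`N` = points without an open neighbourhood in `Q`.  If `N` is not empty then it has an isolated point `s` (Baire); a
decreasing basis `U k` of neighbourhoods of `s` with closure in `V`, `V ∩ N = {s}`, gives `U 0 = {s} ∪ ⋃ (U k ∖ U (k+1))`
where `U k ∖ U (k+1)` lies in the compact set `closure (U k) ∖ U (k+1)`, covered by finitely many sets with `Q`.
-/

namespace Pool.Agent.H75.SG

open Set Filter Topology

theorem scat {L : Type} [TopologicalSpace L] [CompactSpace L] [T2Space L] [Countable L]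
    (Q : Set L → Prop) (hempty : Q ∅) (hmono : ∀ U V, U ⊆ V → Q V → Q U)
    (hunion : ∀ U V, Q U → Q V → Q (U ∪ V))
    (hstep : ∀ (s : L) (W : ℕ → Set L), (∀ i, Q (W i)) →
      (∀ V, IsOpen V → s ∈ V → ∃ i₀, ∀ i, i₀ ≤ i → W i ⊆ V) → Q (insert s (⋃ i, W i))) :
    Q Set.univ := by
  have hcomp : ∀ C : Set L, IsCompact C → (∀ x ∈ C, ∃ V, IsOpen V ∧ x ∈ V ∧ Q V) → Q C := by
    intro C hC h
    refine hC.induction_on hempty (fun s t hst ht => hmono s t hst ht)
      (fun s t hs ht => hunion s t hs ht) ?_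
    intro x hx
    obtain ⟨V, hV, hxV, hQ⟩ := h x hx
    exact ⟨V, mem_nhdsWithin_of_mem_nhds (hV.mem_nhds hxV), hQ⟩
  let G : Set L := {x | ∃ V, IsOpen V ∧ x ∈ V ∧ Q V}
  have hGo : IsOpen G := by
    rw [isOpen_iff_mem_nhds]
    rintro x ⟨V, hV, hxV, hQ⟩
    exact Filter.mem_of_superset (hV.mem_nhds hxV) fun y hy => ⟨V, hV, hy, hQ⟩
  by_cases hN : (Gᶜ : Set L).Nonempty
  · exfalso
    have : Nonempty (Gᶜ : Set L) := hN.to_subtype
    have hNc : CompactSpace (Gᶜ : Set L) := isCompact_iff_compactSpace.mp hGo.isClosed_compl.isCompact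
    obtain ⟨i, hi⟩ := nonempty_interior_of_iUnion_of_closed
      (f := fun i : (Gᶜ : Set L) => ({i} : Set (Gᶜ : Set L))) (fun i => isClosed_singleton)
      (Set.iUnion_of_singleton _)
    have hio : IsOpen ({i} : Set (Gᶜ : Set L)) := by
      obtain ⟨z, hz⟩ := hi
      have h1 : z = i := Set.mem_singleton_iff.mp (interior_subset hz)
      rw [h1] at hz
      have h2 : interior ({i} : Set (Gᶜ : Set L)) = {i} := by
        apply Subset.antisymm interior_subset
        intro y hy
        rw [Set.mem_singleton_iff.mp hy]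
        exact hz
      rw [← h2]
      exact isOpen_interior
    obtain ⟨V, hV, hVi⟩ := isOpen_induced_iff.mp hio
    let s : L := i.1
    have hsV : s ∈ V := by
      have : i ∈ (Subtype.val ⁻¹' V : Set (Gᶜ : Set L)) := by rw [hVi]; rfl
      exact this
    have hVN : ∀ x ∈ V, x ≠ s → x ∈ G := by
      intro x hx hxs
      by_contra hxG
      have h1 : (⟨x, hxG⟩ : (Gᶜ : Set L)) ∈ (Subtype.val ⁻¹' V : Set (Gᶜ : Set L)) := hx
      rw [hVi] at h1
      exact hxs (congrArg Subtype.val (Set.mem_singleton_iff.mp h1))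
    obtain ⟨V₀, hV₀, hsV₀, hV₀V⟩ : ∃ V₀ : Set L, IsOpen V₀ ∧ s ∈ V₀ ∧ closure V₀ ⊆ V := by
      obtain ⟨K, hK, hKc, hKV⟩ := exists_mem_nhds_isClosed_subset (hV.mem_nhds hsV)
      exact ⟨interior K, isOpen_interior, mem_interior_iff_mem_nhds.mpr hK,
        (closure_minimal interior_subset hKc).trans hKV⟩
    have hA : ∀ t : L, ∃ A : Set L, IsOpen A ∧ s ∈ A ∧ (t ≠ s → t ∉ closure A) := by
      intro t
      by_cases hts : t = s
      · exact ⟨Set.univ, isOpen_univ, trivial, fun h => (h hts).elim⟩
      · obtain ⟨A, B, hA, hB, hsA, htB, hAB⟩ := t2_separation (Ne.symm hts)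
        refine ⟨A, hA, hsA, fun _ h => ?_⟩
        have h1 : closure A ⊆ Bᶜ := closure_minimal
          (fun y hy hyB => Set.disjoint_left.mp hAB hy hyB) hB.isClosed_compl
        exact h1 h htB
    choose A hAo hsA hAt using hA
    have : Nonempty L := ⟨s⟩
    obtain ⟨e, he⟩ := exists_surjective_nat L
    let U : ℕ → Set L := fun k => V₀ ∩ ⋂ j ∈ Finset.range k, A (e j)
    have hUo : ∀ k, IsOpen (U k) := fun k =>
      hV₀.inter (isOpen_biInter_finset fun j _ => hAo (e j))
    have hsU : ∀ k, s ∈ U k := fun k => ⟨hsV₀, Set.mem_iInter₂.mpr fun j _ => hsA (e j)⟩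
    have hUa : Antitone U := by
      intro k l hkl x hx
      refine ⟨hx.1, Set.mem_iInter₂.mpr fun j hj => ?_⟩
      exact Set.mem_iInter₂.mp hx.2 j (Finset.mem_range.mpr (lt_of_lt_of_le (Finset.mem_range.mp hj) hkl))
    have hinter : ∀ x ∈ ⋂ k, closure (U k), x = s := by
      intro x hx
      by_contra hxs
      obtain ⟨j, hj⟩ := he x
      have h1 := Set.mem_iInter.mp hx (j + 1)
      have h2 : U (j + 1) ⊆ A (e j) := by
        intro y hy
        exact Set.mem_iInter₂.mp hy.2 j (Finset.mem_range.mpr (Nat.lt_succ_self j))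
      have h3 := closure_mono h2 h1
      rw [hj] at h3
      exact hAt x hxs h3
    have hbasis : ∀ O : Set L, IsOpen O → s ∈ O → ∃ k, closure (U k) ⊆ O := by
      intro O hO hsO
      refine exists_subset_nhds_of_isCompact (V := fun k => closure (U k)) ?_ ?_ ?_
      · intro k l
        exact ⟨max k l, closure_mono (hUa (le_max_left _ _)), closure_mono (hUa (le_max_right _ _))⟩
      · intro k
        exact isClosed_closure.isCompact
      · intro x hx
        rw [hinter x hx]
        exact hO.mem_nhds hsO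
    have hQ : Q (insert s (⋃ k, U k \ U (k + 1))) := by
      refine hstep s (fun k => U k \ U (k + 1)) ?_ ?_
      · intro k
        refine hmono _ (closure (U k) \ U (k + 1)) (Set.sdiff_subset_sdiff_left subset_closure) ?_
        refine hcomp _ (isClosed_closure.isCompact.diff (hUo (k + 1))) ?_
        intro x hx
        have h1 : x ∈ V := hV₀V (closure_mono Set.inter_subset_left hx.1)
        have h2 : x ≠ s := by
          rintro rfl
          exact hx.2 (hsU _)
        exact hVN x h1 h2
      · intro O hO hsO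
        obtain ⟨k, hk⟩ := hbasis O hO hsO
        exact ⟨k, fun l hl => (Set.sdiff_subset.trans (hUa hl)).trans (subset_closure.trans hk)⟩
    have hU0 : U 0 ⊆ insert s (⋃ k, U k \ U (k + 1)) := by
      intro x hx
      by_cases hxs : x = s
      · exact Set.mem_insert_iff.mpr (Or.inl hxs)
      · refine Set.mem_insert_iff.mpr (Or.inr ?_)
        by_contra hcon
        have h1 : ∀ k, x ∈ U k := by
          intro k
          induction k with
          | zero => exact hx
          | succ k ih =>
            by_contra h2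
            exact hcon (Set.mem_iUnion.mpr ⟨k, ih, h2⟩)
        exact hxs (hinter x (Set.mem_iInter.mpr fun k => subset_closure (h1 k)))
    exact i.2 ⟨U 0, hUo 0, hsU 0, hmono _ _ hU0 hQ⟩
  · refine hcomp Set.univ isCompact_univ ?_
    intro x _
    by_contra hx
    exact hN ⟨x, hx⟩

end Pool.Agent.H75.SG
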