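import Pool.Agent.H75.SG.Bas

/-!
# Module SMap: adjoints preserve small sets; small dual balls pass to subspaces

`small_map`: induction over `Small`.  `smallBall_of_embed`: if `c ‖x‖ ≤ ‖A x‖` then by Hahn-Banach every `t` in the unit
ball of the dual of `X` is `g ∘ A` with `‖g‖ ≤ 1/c`; so the ball lies in `Hull (1/c)` of the image of the ball.
-/

namespace Pool.Agent.H75.SG

variable {X Z : Type} [NormedAddCommGroup X] [NormedSpace ℝ X] [NormedAddCommGroup Z] [NormedSpace ℝ Z]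

/-- the adjoint -/
noncomputable def adj (A : X →L[ℝ] Z) : (Z →L[ℝ] ℝ) →L[ℝ] (X →L[ℝ] ℝ) :=
  (ContinuousLinearMap.compL ℝ X Z ℝ).flip A

@[simp] theorem adj_apply (A : X →L[ℝ] Z) (g : Z →L[ℝ] ℝ) : adj A g = g.comp A := rfl

theorem adj_norm_le (A : X →L[ℝ] Z) (g : Z →L[ℝ] ℝ) : ‖adj A g‖ ≤ ‖g‖ * ‖A‖ := by
  rw [adj_apply]
  exact ContinuousLinearMap.opNorm_comp_le g A

theorem small_map (A : X →L[ℝ] Z) {S : Set (Z →L[ℝ] ℝ)} (hS : Small S) : Small (adj A '' S) := by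
  induction hS with
  | empty => rw [Set.image_empty]; exact Small.empty
  | sub _ hst ih => exact ih.sub (Set.image_mono hst)
  | @hull T D _ ih =>
    refine (ih.hull D).sub ?_
    rintro _ ⟨t, ht, rfl⟩ Λ c hc h
    exact ht (Λ.comp (adj A)) c hc fun g hg => h _ ⟨g, hg, rfl⟩
  | @appr S T _ h2 ih =>
    refine Small.appr (fun ρ => adj A '' T (ρ / (‖A‖ + 1))) (fun ρ hρ => ih _ (by positivity)) ?_
    rintro ρ hρ _ ⟨s, hs, rfl⟩
    obtain ⟨t, ht, hst⟩ := h2 (ρ / (‖A‖ + 1)) (by positivity) s hs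
    refine ⟨_, ⟨t, ht, rfl⟩, ?_⟩
    rw [← map_sub]
    refine (adj_norm_le A _).trans ?_
    calc ‖s - t‖ * ‖A‖ ≤ ρ / (‖A‖ + 1) * (‖A‖ + 1) := by
          gcongr
          linarith
      _ = ρ := by field_simp
  | @lim f W M _ hb hl ih =>
    have h := Small.lim (f := adj A f) (W := fun n => adj A '' W n) (|M| * ‖A‖) ih
      (by
        rintro n _ ⟨g, hg, rfl⟩
        refine (adj_norm_le A g).trans ?_
        have := (hb n g hg).trans (le_abs_self M)
        gcongr)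
      (by
        intro x ε hε
        obtain ⟨n₀, hn₀⟩ := hl (A x) ε hε
        refine ⟨n₀, ?_⟩
        rintro n hn _ ⟨g, hg, rfl⟩
        exact hn₀ n hn g hg)
    refine h.sub ?_
    rintro _ ⟨g, hg, rfl⟩
    rcases Set.mem_insert_iff.mp hg with rfl | hg
    · exact Set.mem_insert _ _
    · obtain ⟨n, hn⟩ := Set.mem_iUnion.mp hg
      exact Set.mem_insert_of_mem _ (Set.mem_iUnion.mpr ⟨n, _, hn, rfl⟩)

/-- functionals factor through a bounded below operator -/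
theorem exists_factor (A : X →L[ℝ] Z) {c : ℝ} (hc : 0 < c) (hA : ∀ x, c * ‖x‖ ≤ ‖A x‖)
    (t : X →L[ℝ] ℝ) : ∃ g : Z →L[ℝ] ℝ, ‖g‖ ≤ ‖t‖ / c ∧ adj A g = t := by
  have hinj : Function.Injective A.toLinearMap := by
    intro x y hxy
    have h1 : A (x - y) = 0 := by
      rw [map_sub]
      exact sub_eq_zero.mpr hxy
    have h2 := hA (x - y)
    rw [h1, norm_zero] at h2
    have h3 : ‖x - y‖ ≤ 0 := by
      by_contra hcon
      push Not at hcon
      have := mul_pos hc hcon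
      linarith
    exact sub_eq_zero.mp (norm_le_zero_iff.mp h3)
  let e := LinearEquiv.ofInjective A.toLinearMap hinj
  have he : ∀ z : LinearMap.range A.toLinearMap, A (e.symm z) = z := by
    intro z
    have h := congrArg Subtype.val (e.apply_symm_apply z)
    exact h
  let f : LinearMap.range A.toLinearMap →L[ℝ] ℝ :=
    (t.toLinearMap.comp e.symm.toLinearMap).mkContinuous (‖t‖ / c) (by
      intro z
      have h1 : ‖t (e.symm z)‖ ≤ ‖t‖ * ‖e.symm z‖ := t.le_opNorm _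
      have h2 := hA (e.symm z)
      rw [he z] at h2
      have h3 : ‖e.symm z‖ ≤ ‖z‖ / c := by
        rw [le_div_iff₀ hc]
        have h4 : ‖(z : Z)‖ = ‖z‖ := rfl
        linarith
      calc ‖(t.toLinearMap.comp e.symm.toLinearMap) z‖ = ‖t (e.symm z)‖ := rfl
        _ ≤ ‖t‖ * (‖z‖ / c) := by
          refine h1.trans ?_
          gcongr
        _ = ‖t‖ / c * ‖z‖ := by ring)
  obtain ⟨g, hg1, hg2⟩ := exists_extension_norm_eq (LinearMap.range A.toLinearMap) f
  refine ⟨g, ?_, ?_⟩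
  · rw [hg2]
    exact LinearMap.mkContinuous_norm_le _ (by positivity) _
  · ext x
    have h1 := hg1 ⟨A x, ⟨x, rfl⟩⟩
    have h2 : e.symm ⟨A x, ⟨x, rfl⟩⟩ = x := by
      rw [LinearEquiv.symm_apply_eq]
      rfl
    calc adj A g x = g (A x) := rfl
      _ = f ⟨A x, ⟨x, rfl⟩⟩ := h1
      _ = t (e.symm ⟨A x, ⟨x, rfl⟩⟩) := rfl
      _ = t x := by rw [h2]

theorem smallBall_of_embed (A : X →L[ℝ] Z) {c : ℝ} (hc : 0 < c) (hA : ∀ x, c * ‖x‖ ≤ ‖A x‖)
    (hZ : SmallBall Z) : SmallBall X := by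
  refine ((small_map A hZ).hull (1 / c)).sub ?_
  intro t ht Λ d hd h
  have ht : ‖t‖ ≤ 1 := ht
  obtain ⟨g, hg, rfl⟩ := exists_factor A hc hA t
  have h1 : ‖c • g‖ ≤ 1 := by
    rw [norm_smul, Real.norm_eq_abs, abs_of_pos hc]
    calc c * ‖g‖ ≤ c * (‖adj A g‖ / c) := by gcongr
      _ = ‖adj A g‖ := by field_simp
      _ ≤ 1 := ht
  have h2 := h (adj A (c • g)) ⟨c • g, h1, rfl⟩
  rw [map_smul, map_smul, smul_eq_mul, abs_mul, abs_of_pos hc] at h2
  rw [one_div, inv_mul_eq_div, le_div_iff₀ hc]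
  linarith

end Pool.Agent.H75.SG
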