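import Pool.Agent.H75.SG.TsL
import Pool.Agent.H75.SG.SMap

/-!
# Module TsM: three spaces

`lift_small`: if the ball of the annihilator of `Y` is small and `S` is a small set in the dual of `Y` then
`{t : ‖t‖ ≤ M, t|Y ∈ S}` is small, by induction over `S`.  Step `hull`: for `Λ` in the bidual with `|Λ| ≤ c` on the small
sets, `Λ'` = norm preserving extension of `Λ` from the annihilator, `Λ - Λ'` factors through the dual of `Y`.
`three_space`: dual balls of `Y` and `X ⧸ Y` small ⟹ dual ball of `X` small.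
-/

namespace Pool.Agent.H75.SG

open Set Filter Topology TopologicalSpace

variable {X : Type} [NormedAddCommGroup X] [NormedSpace ℝ X]

/-- the annihilator of `Y` as a subspace -/
private def Per (Y : Submodule ℝ X) : Submodule ℝ (X →L[ℝ] ℝ) where
  carrier := {z | ∀ y ∈ Y, z y = 0}
  add_mem' := by
    intro a b ha hb y hy
    rw [_root_.add_apply, ha y hy, hb y hy, add_zero]
  zero_mem' := fun y _ => rfl
  smul_mem' := by
    intro r a ha y hy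
    change r • a y = 0
    rw [ha y hy, smul_zero]

private lemma restr_norm (Y : Submodule ℝ X) (t : X →L[ℝ] ℝ) : ‖t.comp Y.subtypeL‖ ≤ ‖t‖ := by
  refine ContinuousLinearMap.opNorm_le_bound _ (norm_nonneg _) fun y => ?_
  exact t.le_opNorm (y : X)

private lemma exists_ext (Y : Submodule ℝ X) (s : Y →L[ℝ] ℝ) :
    ∃ t : X →L[ℝ] ℝ, t.comp Y.subtypeL = s ∧ ‖t‖ = ‖s‖ := by
  obtain ⟨g, hg1, hg2⟩ := exists_extension_norm_eq Y s
  exact ⟨g, by ext y; exact hg1 y, hg2⟩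

private lemma ts_ext {V : Type} [NormedAddCommGroup V] [NormedSpace ℝ V] (Λ : V →L[ℝ] ℝ)
    (p : Submodule ℝ V) {c : ℝ} (hc : 0 ≤ c) (h : ∀ z ∈ p, |Λ z| ≤ c * ‖z‖) :
    ∃ Λ' : V →L[ℝ] ℝ, (∀ z ∈ p, Λ' z = Λ z) ∧ ‖Λ'‖ ≤ c := by
  let l : p →L[ℝ] ℝ := Λ.comp p.subtypeL
  have hl : ‖l‖ ≤ c := ContinuousLinearMap.opNorm_le_bound _ hc fun z => h z z.2
  obtain ⟨Λ', h1, h2⟩ := exists_extension_norm_eq p l
  exact ⟨Λ', fun z hz => h1 ⟨z, hz⟩, h2.trans_le hl⟩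

theorem ts_hull {Y : Submodule ℝ X} (hP : Small (Pp Y)) {S : Set (Y →L[ℝ] ℝ)}
    (hIH : ∀ M, Small (Lift Y M S)) {M₀ : ℝ} (hM₀ : 0 ≤ M₀) (hb : ∀ s ∈ S, ‖s‖ ≤ M₀) (D M : ℝ) :
    Small (Lift Y M (Hull D S)) := by
  refine (((hIH M₀).union hP).hull (D * (1 + M₀) + |M|)).sub ?_
  rintro t ⟨ht, htS⟩ Λ c hc h
  -- the restriction of `Λ` to the annihilator
  have hl0 : ∀ z ∈ Per Y, |Λ z| ≤ c * ‖z‖ := by
    intro z hz
    rcases (norm_nonneg z).eq_or_lt with h0 | h0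
    · have h1 : z = 0 := norm_eq_zero.mp h0.symm
      rw [h1, map_zero, norm_zero]
      simp
    · have h1 : ‖z‖⁻¹ • z ∈ Pp Y := by
        refine ⟨?_, fun y hy => ?_⟩
        · rw [norm_smul, norm_inv, norm_norm]
          exact (inv_mul_cancel₀ h0.ne').le
        · change ‖z‖⁻¹ • z y = 0
          rw [hz y hy, smul_zero]
      have h2 := h _ (Or.inr h1)
      rw [map_smul, smul_eq_mul, abs_mul, abs_inv, abs_of_pos h0, inv_mul_le_iff₀ h0] at h2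
      rw [mul_comm]
      exact h2
  obtain ⟨Λ', hΛ', hΛ'n⟩ := ts_ext Λ (Per Y) hc hl0
  have hvan : ∀ z : X →L[ℝ] ℝ, (∀ y ∈ Y, z y = 0) → (Λ - Λ') z = 0 := by
    intro z hz
    change Λ z - Λ' z = 0
    rw [hΛ' z hz]
    exact sub_self _
  choose ext hext1 hext2 using exists_ext Y
  have hdiff : ∀ u v : X →L[ℝ] ℝ, u.comp Y.subtypeL = v.comp Y.subtypeL →
      (Λ - Λ') u = (Λ - Λ') v := by
    intro u v huv
    have h1 := hvan (u - v) (fun y hy => by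
      have := DFunLike.congr_fun huv ⟨y, hy⟩
      change u y - v y = 0
      exact sub_eq_zero.mpr this)
    rw [map_sub] at h1
    exact sub_eq_zero.mp h1
  let Γ : (Y →L[ℝ] ℝ) →L[ℝ] ℝ := LinearMap.mkContinuous
    { toFun := fun s => (Λ - Λ') (ext s)
      map_add' := by
        intro s s'
        rw [← map_add]
        refine hdiff _ _ ?_
        rw [hext1, ContinuousLinearMap.add_comp, hext1, hext1]
      map_smul' := by
        intro r s
        rw [RingHom.id_apply, ← map_smul]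
        refine hdiff _ _ ?_
        rw [hext1, ContinuousLinearMap.smul_comp, hext1] } ‖Λ - Λ'‖ (by
    intro s
    change ‖(Λ - Λ') (ext s)‖ ≤ ‖Λ - Λ'‖ * ‖s‖
    rw [← hext2 s]
    exact (Λ - Λ').le_opNorm _)
  have hΓ : ∀ s, Γ s = (Λ - Λ') (ext s) := fun s => rfl
  have hΓS : ∀ s ∈ S, |Γ s| ≤ c * (1 + M₀) := by
    intro s hs
    rw [hΓ]
    have h1 : |Λ (ext s)| ≤ c := h _ (Or.inl ⟨by rw [hext2]; exact hb s hs, by rw [hext1]; exact hs⟩)
    have h2 : |Λ' (ext s)| ≤ c * M₀ := by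
      calc |Λ' (ext s)| = ‖Λ' (ext s)‖ := rfl
        _ ≤ ‖Λ'‖ * ‖ext s‖ := Λ'.le_opNorm _
        _ ≤ c * M₀ := by
          have h3 : ‖ext s‖ ≤ M₀ := by rw [hext2]; exact hb s hs
          gcongr
    change |Λ (ext s) - Λ' (ext s)| ≤ c * (1 + M₀)
    calc |Λ (ext s) - Λ' (ext s)| ≤ |Λ (ext s)| + |Λ' (ext s)| := abs_sub _ _
      _ ≤ c + c * M₀ := add_le_add h1 h2
      _ = c * (1 + M₀) := by ring
  have h1 : |Γ (t.comp Y.subtypeL)| ≤ D * (c * (1 + M₀)) := htS Γ _ (by positivity) hΓS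
  have h2 : Γ (t.comp Y.subtypeL) = Λ t - Λ' t := by
    rw [hΓ]
    exact hdiff _ _ (hext1 _)
  have h3 : |Λ' t| ≤ c * |M| := by
    calc |Λ' t| = ‖Λ' t‖ := rfl
      _ ≤ ‖Λ'‖ * ‖t‖ := Λ'.le_opNorm _
      _ ≤ c * |M| := by
        have := ht.trans (le_abs_self M)
        gcongr
  have e : Λ t = (Λ t - Λ' t) + Λ' t := by ring
  rw [e]
  rw [h2] at h1
  calc _ ≤ |Λ t - Λ' t| + |Λ' t| := abs_add_le _ _
    _ ≤ D * (c * (1 + M₀)) + c * |M| := add_le_add h1 h3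
    _ = (D * (1 + M₀) + |M|) * c := by ring

theorem ts_appr {Y : Submodule ℝ X} {S : Set (Y →L[ℝ] ℝ)} (T : ℝ → Set (Y →L[ℝ] ℝ))
    (hIH : ∀ ρ, 0 < ρ → ∀ M, Small (Lift Y M (T ρ)))
    (h : ∀ ρ : ℝ, 0 < ρ → ∀ s ∈ S, ∃ t ∈ T ρ, ‖s - t‖ ≤ ρ) (M : ℝ) : Small (Lift Y M S) := by
  refine Small.appr (fun ρ => Lift Y (M + ρ) (T ρ)) (fun ρ hρ => hIH ρ hρ _) ?_
  rintro ρ hρ t ⟨ht, htS⟩
  obtain ⟨s, hs, hts⟩ := h ρ hρ _ htS
  obtain ⟨u, hu1, hu2⟩ := exists_ext Y (t.comp Y.subtypeL - s)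
  have hu3 : ‖u‖ ≤ ρ := by rw [hu2]; exact hts
  refine ⟨t - u, ⟨?_, ?_⟩, ?_⟩
  · calc ‖t - u‖ ≤ ‖t‖ + ‖u‖ := norm_sub_le _ _
      _ ≤ M + ρ := add_le_add ht hu3
  · rw [ContinuousLinearMap.sub_comp, hu1, sub_sub_cancel]
    exact hs
  · rw [sub_sub_cancel]
    exact hu3

theorem lift_small [SeparableSpace X] {Y : Submodule ℝ X} (hP : Small (Pp Y))
    {S : Set (Y →L[ℝ] ℝ)} (hS : Small S) : ∀ M, Small (Lift Y M S) := by
  induction hS with
  | empty => exact fun M => Small.empty.sub (fun t ht => ht.2.elim)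
  | sub _ hst ih => exact fun M => (ih M).sub fun t ht => ⟨ht.1, hst ht.2⟩
  | @hull T D hT ih =>
    obtain ⟨M₀, h0, hb⟩ := hT.bdd
    exact ts_hull hP ih h0 hb D
  | @appr S T _ h ih => exact ts_appr T ih h
  | @lim f W M₀ _ _ hl ih => exact ts_lim hP f W ih hl

theorem small_perp_of_quotient {Y : Submodule ℝ X} [hY : IsClosed (Y : Set X)]
    (hQ : SmallBall (X ⧸ Y)) : Small (Pp Y) := by
  refine (small_map Y.mkQL hQ).sub ?_
  rintro z ⟨hz, hzY⟩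
  let w : (X ⧸ Y) →L[ℝ] ℝ := LinearMap.mkContinuous
    (Y.liftQ z.toLinearMap (fun y hy => LinearMap.mem_ker.mpr (hzY y hy))) 1 (by
      intro q
      rw [one_mul]
      refine le_of_forall_pos_le_add fun ε hε => ?_
      obtain ⟨x, rfl, hx⟩ := Submodule.Quotient.norm_mk_lt q hε
      change ‖z x‖ ≤ _
      calc ‖z x‖ ≤ ‖z‖ * ‖x‖ := z.le_opNorm x
        _ ≤ 1 * ‖x‖ := by gcongr
        _ = ‖x‖ := one_mul _
        _ ≤ _ := hx.le)
  refine ⟨w, ?_, ?_⟩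
  · exact LinearMap.mkContinuous_norm_le _ zero_le_one _
  · ext x
    rfl

theorem three_space [SeparableSpace X] (Y : Submodule ℝ X) [hY : IsClosed (Y : Set X)]
    (h1 : SmallBall Y) (h2 : SmallBall (X ⧸ Y)) : SmallBall X := by
  refine (lift_small (small_perp_of_quotient h2) h1 1).sub ?_
  intro t ht
  exact ⟨ht, (restr_norm Y t).trans ht⟩

end Pool.Agent.H75.SG
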