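import Pool.Agent.H75.SG.Glue
import Pool.Agent.H75.SG.TsM
import Pool.Agent.H75.SG.Scat

/-!
# Module CtF: continuous sums over a countable compact space, the fibres

`Y l` closed subspaces of `X`, upper semicontinuous: for `y ∈ Y l` the norm of `y` in `X ⧸ Y l'` tends to `0` as
`l' → l`.  If all quotients `X ⧸ Y l` have small dual balls then the union over `l` of the unit balls of the
annihilators of the `Y l` is small (induction `scat`, step `glue`).
-/

namespace Pool.Agent.H75.SG

open Set Filter Topology TopologicalSpace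

variable {X : Type} [NormedAddCommGroup X] [NormedSpace ℝ X]

/-- functionals in the annihilator ball are bounded by the quotient norm -/
theorem perp_le {Y : Submodule ℝ X} {f : X →L[ℝ] ℝ} (hf : f ∈ Pp Y) (x : X) :
    |f x| ≤ ‖(Submodule.Quotient.mk x : X ⧸ Y)‖ := by
  refine le_of_forall_pos_le_add fun ε hε => ?_
  obtain ⟨z, hz, hzn⟩ := Submodule.Quotient.norm_mk_lt (Submodule.Quotient.mk x : X ⧸ Y) hε
  have h1 : z - x ∈ Y := (Submodule.Quotient.eq Y).mp hz
  have h2 : f x = f z := by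
    have := hf.2 (z - x) h1
    rw [map_sub] at this
    linarith
  rw [h2]
  calc |f z| = ‖f z‖ := rfl
    _ ≤ ‖f‖ * ‖z‖ := f.le_opNorm z
    _ ≤ 1 * ‖z‖ := by
      have := hf.1
      gcongr
    _ = ‖z‖ := one_mul _
    _ ≤ _ := hzn.le

/-- Hahn-Banach for the quotient norm -/
theorem exists_perp {Y : Submodule ℝ X} [hY : IsClosed (Y : Set X)] (x : X) :
    ∃ f ∈ Pp Y, f x = ‖(Submodule.Quotient.mk x : X ⧸ Y)‖ := by
  obtain ⟨w, hw, hwx⟩ := exists_dual_vector'' ℝ (Submodule.Quotient.mk x : X ⧸ Y)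
  refine ⟨w.comp Y.mkQL, ⟨?_, fun y hy => ?_⟩, ?_⟩
  · refine ContinuousLinearMap.opNorm_le_bound _ zero_le_one fun z => ?_
    rw [one_mul]
    calc ‖w (Submodule.Quotient.mk z)‖ ≤ ‖w‖ * ‖(Submodule.Quotient.mk z : X ⧸ Y)‖ := w.le_opNorm _
      _ ≤ 1 * ‖z‖ := by
        have := Submodule.Quotient.norm_mk_le Y z
        gcongr
      _ = ‖z‖ := one_mul _
  · change w (Submodule.Quotient.mk y) = 0
    rw [(Submodule.Quotient.mk_eq_zero Y).mpr hy, map_zero]
  · exact hwx

variable {L : Type} [TopologicalSpace L] [CompactSpace L] [T2Space L] [Countable L]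

theorem small_fibres [SeparableSpace X] (Y : L → Submodule ℝ X) (hS : ∀ l, Small (Pp (Y l)))
    (husc : ∀ l, ∀ y ∈ Y l, ∀ ε : ℝ, 0 < ε → ∀ᶠ l' in 𝓝 l,
      ‖(Submodule.Quotient.mk y : X ⧸ Y l')‖ ≤ ε) :
    Small (⋃ l, Pp (Y l)) := by
  have h := scat (L := L) (fun U => Small (⋃ l ∈ U, Pp (Y l)))
    (by simpa using Small.empty)
    (fun U V hUV hV => hV.sub (Set.biUnion_subset_biUnion_left hUV))
    (fun U V hU hV => (hU.union hV).sub (by rw [Set.biUnion_union]))
    (by
      intro s W hW hconv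
      have h1 := glue (hS s) (fun i => ⋃ l ∈ W i, Pp (Y l)) hW (M := 1) (fun t ht => ht.1)
        (by
          intro n t ht
          obtain ⟨l, _, hl⟩ := Set.mem_iUnion₂.mp ht
          exact hl.1)
        (by
          intro φ t u hφ ht hu hut
          refine ⟨hu, fun y hy => ?_⟩
          have h2 : Tendsto (fun i => t i y) (hyperfilter ℕ) (𝓝 0) := by
            refine Tendsto.mono_left ?_ Nat.hyperfilter_le_atTop
            rw [Metric.tendsto_atTop]
            intro ε hε
            obtain ⟨V, hV, hVo, hsV⟩ := eventually_nhds_iff.mp (husc s y hy (ε / 2) (half_pos hε))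
            obtain ⟨i₀, hi₀⟩ := hconv V hVo hsV
            refine ⟨i₀, fun i hi => ?_⟩
            obtain ⟨l, hl, hlt⟩ := Set.mem_iUnion₂.mp (ht i)
            have h3 := hV l (hi₀ (φ i) (hi.trans (hφ i)) hl)
            rw [Real.dist_eq, sub_zero]
            exact lt_of_le_of_lt ((perp_le hlt y).trans h3) (half_lt_self hε)
          exact tendsto_nhds_unique (hut y) h2)
      refine ((hS s).union h1).sub ?_
      intro t ht
      obtain ⟨l, hl, hlt⟩ := Set.mem_iUnion₂.mp ht
      rcases Set.mem_insert_iff.mp hl with rfl | hl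
      · exact Or.inl hlt
      · obtain ⟨i, hi⟩ := Set.mem_iUnion.mp hl
        exact Or.inr (Set.mem_iUnion.mpr ⟨i, Set.mem_iUnion₂.mpr ⟨l, hi, hlt⟩⟩))
  simpa using h

end Pool.Agent.H75.SG
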