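import Pool.Agent.H75.SG.Bas

/-!
# Module SepS: small sets are norm separable

Induction over `Small`.  Step `hull`: a functional outside the closed span of `T` is not in `Hull D T` (Hahn-Banach).
Hence `SmallBall X` implies that the dual of `X` is separable.
-/

namespace Pool.Agent.H75.SG

open Set Filter Topology TopologicalSpace

variable {X : Type} [NormedAddCommGroup X] [NormedSpace ℝ X]

theorem hull_subset_closure_span (D : ℝ) (T : Set (X →L[ℝ] ℝ)) :
    Hull D T ⊆ closure ((Submodule.span ℝ T : Submodule ℝ (X →L[ℝ] ℝ)) : Set (X →L[ℝ] ℝ)) := by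
  intro t ht
  by_contra hcon
  obtain ⟨Λ, u, hu1, hu2⟩ := geometric_hahn_banach_closed_point
    ((Submodule.convex _).closure) isClosed_closure hcon
  have h2 : ∀ g ∈ T, Λ g = 0 := by
    intro g hg
    by_contra hne
    have h3 : ∀ r : ℝ, r * Λ g < u := by
      intro r
      have := hu1 (r • g) (subset_closure
        (Submodule.smul_mem _ r (Submodule.subset_span hg)))
      simpa using this
    have h4 := h3 ((u + 1) / Λ g)
    rw [div_mul_cancel₀ _ hne] at h4
    linarith
  have h5 := ht Λ 0 le_rfl (by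
    intro g hg
    rw [h2 g hg, abs_zero])
  rw [mul_zero] at h5
  have h6 : Λ t = 0 := abs_eq_zero.mp (le_antisymm h5 (abs_nonneg _))
  have h7 := hu1 0 (subset_closure (Submodule.zero_mem _))
  rw [map_zero] at h7
  linarith

theorem Small.isSeparable {S : Set (X →L[ℝ] ℝ)} (hS : Small S) : IsSeparable S := by
  induction hS with
  | empty => exact Set.countable_empty.isSeparable
  | sub _ hst ih => exact ih.mono hst
  | hull D _ ih => exact (ih.span.closure).mono (hull_subset_closure_span D _)
  | @appr S T _ h2 ih =>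
    have h3 : IsSeparable (⋃ n : ℕ, T (1 / ((n : ℝ) + 1))) :=
      isSeparable_iUnion.mpr fun n => ih _ (by positivity)
    refine h3.closure.mono ?_
    intro s hs
    rw [Metric.mem_closure_iff]
    intro ε hε
    obtain ⟨n, hn⟩ := exists_nat_one_div_lt hε
    obtain ⟨t, ht, hst⟩ := h2 (1 / ((n : ℝ) + 1)) (by positivity) s hs
    refine ⟨t, mem_iUnion.mpr ⟨n, ht⟩, ?_⟩
    rw [dist_eq_norm]
    exact lt_of_le_of_lt hst hn
  | @lim f W M _ _ _ ih =>
    rw [Set.insert_eq]
    exact ((Set.countable_singleton f).isSeparable).union (isSeparable_iUnion.mpr ih)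

theorem separable_of_smallBall (h : SmallBall X) : SeparableSpace (X →L[ℝ] ℝ) := by
  have h1 : IsSeparable {t : X →L[ℝ] ℝ | ‖t‖ ≤ 1} := h.isSeparable
  have h2 : IsSeparable (Set.univ : Set (X →L[ℝ] ℝ)) := by
    refine (h1.span (R := ℝ)).mono ?_
    intro t _
    rcases eq_or_ne t 0 with h0 | h0
    · rw [h0]
      exact Submodule.zero_mem _
    · have h3 : 0 < ‖t‖ := norm_pos_iff.mpr h0
      have h4 : t = ‖t‖ • (‖t‖⁻¹ • t) := by
        rw [smul_smul, mul_inv_cancel₀ h3.ne', one_smul]
      rw [h4]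
      refine Submodule.smul_mem _ _ (Submodule.subset_span ?_)
      change ‖‖t‖⁻¹ • t‖ ≤ 1
      rw [norm_smul, norm_inv, norm_norm, inv_mul_cancel₀ h3.ne']
  exact isSeparable_univ_iff.mp h2

end Pool.Agent.H75.SG
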