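import Pool.Agent.H75.SG.SMap
import Pool.Agent.H75.SG.SepS
import Pool.Agent.H87.CS.Wnl

/-!
# Module NrH: separable norming weak* compact families

`A : X → C(K)` with `c ‖x‖ ≤ ‖A x‖`.  If the functionals `x ↦ (A x) k`, `k ∈ K`, form a norm separable set then every
`t` lies in `Hull (‖t‖ / c)` of them.  Proof: let `Λ` be in the bidual, `|Λ| ≤ d` on the coordinates.  By the local form
of Goldstine's theorem there is a bounded sequence `x k` with `t (x k) = Λ t` and `g (x k) → Λ g` for all coordinates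
`g`.  Write `t = m ∘ A`, `‖m‖ ≤ ‖t‖ / c`, and apply `Pool.Agent.H87.CS.le_of_pointwise` (bounded pointwise limits).
-/

namespace Pool.Agent.H75.SG

open Set Filter Topology TopologicalSpace

variable {X : Type} [NormedAddCommGroup X] [NormedSpace ℝ X]

/-- local form of Goldstine's theorem -/
theorem goldstine (Λ : (X →L[ℝ] ℝ) →L[ℝ] ℝ) {n : ℕ} (g : Fin n → (X →L[ℝ] ℝ)) {ε : ℝ}
    (hε : 0 < ε) : ∃ x : X, ‖x‖ ≤ ‖Λ‖ ∧ ∀ j, |g j x - Λ (g j)| ≤ ε := by
  let B : X →L[ℝ] (Fin n → ℝ) := ContinuousLinearMap.pi g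
  let v : Fin n → ℝ := fun j => Λ (g j)
  have hv : v ∈ closure (B '' Metric.closedBall 0 ‖Λ‖) := by
    by_contra hcon
    obtain ⟨f, u, hu1, hu2⟩ := geometric_hahn_banach_closed_point
      (((convex_closedBall (0 : X) ‖Λ‖).linear_image B.toLinearMap).closure)
      isClosed_closure hcon
    let a : Fin n → ℝ := fun j => f (fun i => if j = i then 1 else 0)
    have hf : ∀ w : Fin n → ℝ, f w = ∑ j, a j * w j := by
      intro w
      have h1 := LinearMap.pi_apply_eq_sum_univ f.toLinearMap w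
      have h2 : f w = ∑ i, w i • f (fun j => if i = j then 1 else 0) := h1
      rw [h2]
      exact Finset.sum_congr rfl fun j _ => by rw [smul_eq_mul, mul_comm]
    let G : X →L[ℝ] ℝ := ∑ j, a j • g j
    have hG : ∀ x, G x = f (B x) := by
      intro x
      rw [hf]
      simp [G, B, _root_.sum_apply]
    have hGΛ : Λ G = f v := by
      rw [hf]
      simp [G, v, map_sum]
    have h1 : ∀ x : X, ‖x‖ ≤ ‖Λ‖ → G x < u := by
      intro x hx
      rw [hG]
      exact hu1 _ (subset_closure ⟨x, by simpa using hx, rfl⟩)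
    have h2 : ‖Λ‖ * ‖G‖ ≤ u := by
      have h0 : 0 < u := by
        have := h1 0 (by rw [norm_zero]; exact norm_nonneg Λ)
        rwa [map_zero] at this
      rcases (norm_nonneg Λ).eq_or_lt with hL | hL
      · rw [← hL, zero_mul]
        exact h0.le
      · rw [mul_comm, ← le_div_iff₀ hL]
        refine ContinuousLinearMap.opNorm_le_bound _ (by positivity) fun x => ?_
        rcases eq_or_ne x 0 with hx | hx
        · rw [hx, map_zero, norm_zero, norm_zero, mul_zero]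
        · have hx' : 0 < ‖x‖ := norm_pos_iff.mpr hx
          have h3 : ∀ y : X, y ≠ 0 → G y ≤ u / ‖Λ‖ * ‖y‖ := by
            intro y hy
            have hy' : 0 < ‖y‖ := norm_pos_iff.mpr hy
            have h4 := h1 ((‖Λ‖ / ‖y‖) • y) (by
              rw [norm_smul, Real.norm_eq_abs, abs_of_pos (by positivity)]
              rw [div_mul_cancel₀ _ hy'.ne'])
            rw [map_smul, smul_eq_mul] at h4
            have h5 : G y = (‖Λ‖ / ‖y‖ * G y) * (‖y‖ / ‖Λ‖) := by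
              field_simp
            rw [h5]
            calc (‖Λ‖ / ‖y‖ * G y) * (‖y‖ / ‖Λ‖) ≤ u * (‖y‖ / ‖Λ‖) := by
                  have := h4.le
                  gcongr
              _ = u / ‖Λ‖ * ‖y‖ := by ring
          rw [Real.norm_eq_abs, abs_le]
          refine ⟨?_, h3 x hx⟩
          have h5 := h3 (-x) (neg_ne_zero.mpr hx)
          rw [map_neg, norm_neg] at h5
          linarith
    have h3 : Λ G ≤ ‖Λ‖ * ‖G‖ := (le_abs_self _).trans (Λ.le_opNorm G)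
    rw [hGΛ] at h3
    linarith
  rw [Metric.mem_closure_iff] at hv
  obtain ⟨_, ⟨x, hx, rfl⟩, hxv⟩ := hv ε hε
  refine ⟨x, by simpa using hx, fun j => ?_⟩
  rw [dist_comm, dist_eq_norm] at hxv
  have h1 := norm_le_pi_norm (B x - v) j
  have h2 : (B x - v) j = g j x - Λ (g j) := rfl
  rw [h2] at h1
  exact h1.trans hxv.le

theorem norm_hull {K : Type} [TopologicalSpace K] [CompactSpace K] [T2Space K]
    (A : X →L[ℝ] C(K, ℝ)) {c : ℝ} (hc : 0 < c) (hA : ∀ x, c * ‖x‖ ≤ ‖A x‖)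
    {T : Set (X →L[ℝ] ℝ)} (hT : ∀ k, ∃ g ∈ T, ∀ x, A x k = g x) (hsep : IsSeparable T)
    (t : X →L[ℝ] ℝ) : t ∈ Hull (‖t‖ / c) T := by
  intro Λ d hd h
  rcases eq_or_ne t 0 with h0 | h0
  · rw [h0, map_zero, abs_zero]
    positivity
  obtain ⟨z, hz⟩ : ∃ z, t z = 1 := by
    obtain ⟨y, hy⟩ : ∃ y, t y ≠ 0 := by
      by_contra hcon
      push Not at hcon
      exact h0 (by ext y; exact hcon y)
    refine ⟨(t y)⁻¹ • y, ?_⟩
    rw [map_smul, smul_eq_mul, inv_mul_cancel₀ hy]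
  obtain ⟨m, hm, hmt⟩ := exists_factor A hc hA t
  obtain ⟨D, hDc, hD⟩ := hsep
  obtain ⟨q, hq⟩ := (hDc.union (countable_singleton t)).exists_eq_range ⟨t, Or.inr rfl⟩
  choose x hx1 hx2 using fun k : ℕ =>
    goldstine Λ (n := k) (fun j => q j) (ε := 1 / ((k : ℝ) + 1)) (by positivity)
  have hx3 : ∀ j, Tendsto (fun k => q j (x k)) atTop (𝓝 (Λ (q j))) := by
    intro j
    rw [Metric.tendsto_atTop]
    intro ε hε
    obtain ⟨n, hn⟩ := exists_nat_one_div_lt hε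
    refine ⟨max (j + 1) n, fun k hk => ?_⟩
    have h1 : j < k := lt_of_lt_of_le (Nat.lt_succ_self j) ((le_max_left _ _).trans hk)
    have h2 := hx2 k ⟨j, h1⟩
    rw [Real.dist_eq]
    refine lt_of_le_of_lt h2 (lt_of_le_of_lt ?_ hn)
    have h3 : (n : ℝ) ≤ k := by exact_mod_cast (le_max_right _ _).trans hk
    gcongr
  have hx4 : ∀ g ∈ closure (D ∪ {t}), Tendsto (fun k => g (x k)) atTop (𝓝 (Λ g)) := by
    intro g hg
    rw [Metric.tendsto_atTop]
    intro ε hε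
    have hL : 0 < 2 * ‖Λ‖ + 1 := by positivity
    obtain ⟨g', hg', hgg⟩ := Metric.mem_closure_iff.mp hg (ε / (2 * (2 * ‖Λ‖ + 1))) (by positivity)
    rw [hq] at hg'
    obtain ⟨j, rfl⟩ := hg'
    obtain ⟨n, hn⟩ := Metric.tendsto_atTop.mp (hx3 j) (ε / 2) (half_pos hε)
    refine ⟨n, fun k hk => ?_⟩
    have h1 := hn k hk
    rw [Real.dist_eq] at h1 ⊢
    rw [dist_eq_norm] at hgg
    have h2 : |(g - q j) (x k)| ≤ ‖g - q j‖ * ‖Λ‖ := by
      calc |(g - q j) (x k)| = ‖(g - q j) (x k)‖ := rfl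
        _ ≤ ‖g - q j‖ * ‖x k‖ := (g - q j).le_opNorm _
        _ ≤ ‖g - q j‖ * ‖Λ‖ := by
          have := hx1 k
          gcongr
    have h3 : |Λ (g - q j)| ≤ ‖g - q j‖ * ‖Λ‖ := by
      calc |Λ (g - q j)| = ‖Λ (g - q j)‖ := rfl
        _ ≤ ‖Λ‖ * ‖g - q j‖ := Λ.le_opNorm _
        _ = ‖g - q j‖ * ‖Λ‖ := mul_comm _ _
    have e : g (x k) - Λ g = ((q j (x k) - Λ (q j)) + (g - q j) (x k)) - Λ (g - q j) := by
      rw [map_sub, _root_.sub_apply]
      ring
    rw [e]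
    have h4 : ‖g - q j‖ * (2 * ‖Λ‖) < ε / 2 := by
      calc ‖g - q j‖ * (2 * ‖Λ‖) ≤ ‖g - q j‖ * (2 * ‖Λ‖ + 1) := by gcongr; linarith
        _ < ε / (2 * (2 * ‖Λ‖ + 1)) * (2 * ‖Λ‖ + 1) := by gcongr
        _ = ε / 2 := by field_simp
    calc _ ≤ _ := abs_sub _ _
      _ ≤ (|q j (x k) - Λ (q j)| + |(g - q j) (x k)|) + |Λ (g - q j)| := by
        gcongr
        exact abs_add_le _ _
      _ < (ε / 2 + ‖g - q j‖ * ‖Λ‖) + ‖g - q j‖ * ‖Λ‖ := by
        have := h1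
        linarith
      _ = ε / 2 + ‖g - q j‖ * (2 * ‖Λ‖) := by ring
      _ < ε / 2 + ε / 2 := by linarith
      _ = ε := add_halves ε
  have hxt : Tendsto (fun k => t (x k)) atTop (𝓝 (Λ t)) := hx4 t (subset_closure (Or.inr rfl))
  let r : ℕ → ℝ := fun k => Λ t - t (x k)
  have hr : Tendsto r atTop (𝓝 0) := by
    have := (tendsto_const_nhds (x := Λ t)).sub hxt
    rwa [sub_self] at this
  let y : ℕ → X := fun k => x k + r k • z
  have hyt : ∀ k, t (y k) = Λ t := by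
    intro k
    simp only [y, r]
    rw [map_add, map_smul, hz, smul_eq_mul, mul_one]
    ring
  have hyT : ∀ g ∈ T, Tendsto (fun k => g (y k)) atTop (𝓝 (Λ g)) := by
    intro g hg
    have h1 := hx4 g (closure_mono subset_union_left (hD hg))
    have h2 := h1.add (hr.mul_const (g z))
    rw [zero_mul, add_zero] at h2
    refine h2.congr fun k => ?_
    simp only [y]
    rw [map_add, map_smul, smul_eq_mul]
  have hrb : ∀ k, |r k| ≤ 2 * ‖Λ‖ * ‖t‖ := by
    intro k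
    have h1 : |Λ t| ≤ ‖Λ‖ * ‖t‖ := Λ.le_opNorm t
    have h2 : |t (x k)| ≤ ‖t‖ * ‖Λ‖ := (t.le_opNorm (x k)).trans (by
      have := hx1 k
      gcongr)
    calc |r k| ≤ |Λ t| + |t (x k)| := abs_sub _ _
      _ ≤ ‖Λ‖ * ‖t‖ + ‖t‖ * ‖Λ‖ := add_le_add h1 h2
      _ = 2 * ‖Λ‖ * ‖t‖ := by ring
  have hyb : ∀ k, ‖y k‖ ≤ ‖Λ‖ + 2 * ‖Λ‖ * ‖t‖ * ‖z‖ := by
    intro k
    calc ‖y k‖ ≤ ‖x k‖ + ‖r k • z‖ := norm_add_le _ _
      _ = ‖x k‖ + |r k| * ‖z‖ := by rw [norm_smul, Real.norm_eq_abs]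
      _ ≤ ‖Λ‖ + 2 * ‖Λ‖ * ‖t‖ * ‖z‖ := by
        have h1 := hx1 k
        have h2 := hrb k
        gcongr
  choose g hgT hg using hT
  have hAb : ∀ k, ‖A (y k)‖ ≤ ‖A‖ * (‖Λ‖ + 2 * ‖Λ‖ * ‖t‖ * ‖z‖) := by
    intro k
    refine (A.le_opNorm _).trans ?_
    have := hyb k
    gcongr
  have hAl : ∀ s, Tendsto (fun k => A (y k) s) atTop (𝓝 (Λ (g s))) := by
    intro s
    refine (hyT (g s) (hgT s)).congr fun k => ?_
    exact (hg s (y k)).symm
  have hma : ∀ k, m (A (y k)) = Λ t := by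
    intro k
    rw [← hyt k, ← hmt]
    rfl
  have h1 : Λ t ≤ ‖m‖ * d := Pool.Agent.H87.CS.le_of_pointwise m (fun k => A (y k)) _ d (Λ t)
    (fun s => Λ (g s)) hAb hAl (fun s => h _ (hgT s)) hd hma
  have h2 : -Λ t ≤ ‖-m‖ * d := Pool.Agent.H87.CS.le_of_pointwise (-m) (fun k => A (y k)) _ d
    (-Λ t) (fun s => Λ (g s)) hAb hAl (fun s => h _ (hgT s)) hd (fun k => by
      rw [_root_.neg_apply, hma k])
  rw [norm_neg] at h2
  have h3 : |Λ t| ≤ ‖m‖ * d := abs_le.mpr ⟨by linarith, h1⟩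
  refine h3.trans ?_
  gcongr

end Pool.Agent.H75.SG
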