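import Pool.Agent.H75.SG.CtF
import Pool.Agent.H75.SG.NrH

/-!
# Module CtS: continuous sums over a countable compact space

`Y l`, `l ∈ L`, closed subspaces of the separable space `X`, upper semicontinuous: for `y ∈ Y l` the norm of `y` in
`X ⧸ Y l'` tends to `0` as `l' → l`; the quotient norms together are equivalent to the norm of `X`.  If all quotients
`X ⧸ Y l` have small dual balls then so has `X`.  The union `T` of the balls of the annihilators is weak* compact
(`isClosed_fibres`), small (`small_fibres`), hence norm separable, and norming; conclude with `norm_hull`.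
-/

namespace Pool.Agent.H75.SG

open Set Filter Topology TopologicalSpace

variable {X : Type} [NormedAddCommGroup X] [NormedSpace ℝ X]

theorem isClosed_fibres {L : Type} [TopologicalSpace L] [CompactSpace L] (Y : L → Submodule ℝ X)
    (husc : ∀ l, ∀ y ∈ Y l, ∀ ε : ℝ, 0 < ε → ∀ᶠ l' in 𝓝 l,
      ‖(Submodule.Quotient.mk y : X ⧸ Y l')‖ ≤ ε) :
    IsClosed {f : WeakDual ℝ X | ∃ l, WeakDual.toStrongDual f ∈ Pp (Y l)} := by
  classical
  rw [isClosed_iff_ultrafilter]
  intro f u huf hu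
  have hne : ∃ l : L, True := by
    obtain ⟨g, l, _⟩ := u.nonempty_of_mem hu
    exact ⟨l, trivial⟩
  obtain ⟨l₁, _⟩ := hne
  let s : WeakDual ℝ X → L := fun g =>
    if h : ∃ l, WeakDual.toStrongDual g ∈ Pp (Y l) then h.choose else l₁
  have hs : ∀ g : WeakDual ℝ X, (∃ l, WeakDual.toStrongDual g ∈ Pp (Y l)) →
      WeakDual.toStrongDual g ∈ Pp (Y (s g)) := by
    intro g hg
    simp only [s]
    rw [dif_pos hg]
    exact hg.choose_spec
  obtain ⟨l₀, -, hl₀⟩ := isCompact_univ.ultrafilter_le_nhds (u.map s) (by simp)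
  have hl₁ : Tendsto s u (𝓝 l₀) := hl₀
  have hcont : ∀ x : X, Tendsto (fun g : WeakDual ℝ X => g x) u (𝓝 (f x)) := fun x =>
    ((WeakDual.eval_continuous x).tendsto f).mono_left huf
  refine ⟨l₀, ?_, fun y hy => ?_⟩
  · have h1 : IsClosed (WeakDual.toStrongDual ⁻¹' Metric.closedBall (0 : X →L[ℝ] ℝ) 1) :=
      WeakDual.isClosed_closedBall 0 1
    have h2 := isClosed_iff_ultrafilter.mp h1 f u huf (by
      filter_upwards [hu] with g hg
      obtain ⟨l, hl⟩ := hg
      rw [Set.mem_preimage, mem_closedBall_zero_iff]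
      exact hl.1)
    rw [Set.mem_preimage, mem_closedBall_zero_iff] at h2
    exact h2
  · have h1 : ∀ ε : ℝ, 0 < ε → |f y| ≤ ε := by
      intro ε hε
      have h2 : ∀ᶠ g in (u : Filter (WeakDual ℝ X)), |g y| ≤ ε := by
        filter_upwards [hl₁ (husc l₀ y hy ε hε), hu] with g hg1 hg2
        exact (perp_le (hs g hg2) y).trans hg1
      exact le_of_tendsto (hcont y).abs h2
    have h3 : |f y| ≤ 0 := le_of_forall_pos_le_add fun ε hε => by
      rw [zero_add]
      exact h1 ε hε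
    exact abs_eq_zero.mp (le_antisymm h3 (abs_nonneg _))

/-- a compact norming separable family of functionals given by a weak* closed bounded set -/
theorem hull_of_closed {T : Set (X →L[ℝ] ℝ)}
    (hT : IsClosed {f : WeakDual ℝ X | WeakDual.toStrongDual f ∈ T}) (hT1 : ∀ t ∈ T, ‖t‖ ≤ 1)
    (hsep : IsSeparable T) {c : ℝ} (hc : 0 < c) (hlow : ∀ x, ∃ f ∈ T, c * ‖x‖ ≤ f x)
    (t : X →L[ℝ] ℝ) : t ∈ Hull (‖t‖ / c) T := by
  let K : Set (WeakDual ℝ X) := {f | WeakDual.toStrongDual f ∈ T}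
  have hK : IsCompact K := by
    refine IsCompact.of_isClosed_subset (WeakDual.isCompact_closedBall (0 : X →L[ℝ] ℝ) 1) hT ?_
    intro f hf
    rw [Set.mem_preimage, mem_closedBall_zero_iff]
    exact hT1 _ hf
  have : CompactSpace K := isCompact_iff_compactSpace.mp hK
  let A₀ : X →ₗ[ℝ] C(K, ℝ) :=
    { toFun := fun x => ⟨fun f => (f : WeakDual ℝ X) x,
        (WeakDual.eval_continuous x).comp continuous_subtype_val⟩
      map_add' := fun x y => by
        ext f
        exact map_add (WeakDual.toStrongDual (f : WeakDual ℝ X)) x y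
      map_smul' := fun r x => by
        ext f
        exact map_smul (WeakDual.toStrongDual (f : WeakDual ℝ X)) r x }
  let A : X →L[ℝ] C(K, ℝ) := A₀.mkContinuous 1 (by
    intro x
    rw [one_mul, ContinuousMap.norm_le _ (norm_nonneg x)]
    intro f
    calc ‖(WeakDual.toStrongDual (f : WeakDual ℝ X)) x‖
        ≤ ‖WeakDual.toStrongDual (f : WeakDual ℝ X)‖ * ‖x‖ := ContinuousLinearMap.le_opNorm _ _
      _ ≤ 1 * ‖x‖ := mul_le_mul_of_nonneg_right
          (hT1 (WeakDual.toStrongDual (f : WeakDual ℝ X)) f.2) (norm_nonneg x)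
      _ = ‖x‖ := one_mul _)
  refine norm_hull A hc ?_ (T := T) ?_ hsep t
  · intro x
    obtain ⟨f, hf, hfx⟩ := hlow x
    refine hfx.trans ?_
    have h1 := (A x).norm_coe_le_norm ⟨StrongDual.toWeakDual f, hf⟩
    exact (le_abs_self _).trans h1
  · intro k
    exact ⟨WeakDual.toStrongDual (k : WeakDual ℝ X), k.2, fun x => rfl⟩

theorem continuous_sum [SeparableSpace X] {L : Type} [TopologicalSpace L] [CompactSpace L]
    [T2Space L] [Countable L] (Y : L → Submodule ℝ X) [∀ l, IsClosed (Y l : Set X)]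
    (hS : ∀ l, SmallBall (X ⧸ Y l))
    (husc : ∀ l, ∀ y ∈ Y l, ∀ ε : ℝ, 0 < ε → ∀ᶠ l' in 𝓝 l,
      ‖(Submodule.Quotient.mk y : X ⧸ Y l')‖ ≤ ε)
    {c : ℝ} (hc : 0 < c) (hlow : ∀ x : X, ∃ l, c * ‖x‖ ≤ ‖(Submodule.Quotient.mk x : X ⧸ Y l)‖) :
    SmallBall X := by
  have h1 : Small (⋃ l, Pp (Y l)) :=
    small_fibres Y (fun l => small_perp_of_quotient (hS l)) husc
  have h2 : IsClosed {f : WeakDual ℝ X | WeakDual.toStrongDual f ∈ ⋃ l, Pp (Y l)} := by
    have := isClosed_fibres Y husc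
    simpa only [Set.mem_iUnion] using this
  refine (h1.hull (1 / c)).sub ?_
  intro t ht Λ d hd h
  have ht : ‖t‖ ≤ 1 := ht
  have h3 := hull_of_closed h2 (by
    intro s hs
    obtain ⟨l, hl⟩ := Set.mem_iUnion.mp hs
    exact hl.1) h1.isSeparable hc (by
      intro x
      obtain ⟨l, hl⟩ := hlow x
      obtain ⟨f, hf, hfx⟩ := exists_perp (Y := Y l) x
      exact ⟨f, Set.mem_iUnion.mpr ⟨l, hf⟩, by rw [hfx]; exact hl⟩) t Λ d hd h
  refine h3.trans ?_
  have : ‖t‖ / c ≤ 1 / c := by gcongr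
  gcongr

end Pool.Agent.H75.SG
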