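import Pool.Agent.H75.SG.SMap

/-!
# Module CzS: small dual balls and `c₀`-sums

If `Q n : Z → X n` are uniformly bounded operators with `‖Q n z‖ → 0` and `c ‖z‖ ≤ max ‖Q n z‖` (that is, `Z` embeds in
the `c₀`-sum of the `X n`) and every `X n` has a small dual ball, then `Z` has a small dual ball.  The sets
`W n = {u ∘ Q n : ‖u‖ ≤ 1}` are small, bounded and converge weak* to `0`, and every `t` in the dual ball of `Z` is
`Σ g n ∘ Q n` with `Σ ‖g n‖ ≤ 1/c` (Hahn-Banach in the `ℓ_∞`-sum).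
-/

namespace Pool.Agent.H75.SG

open Set Filter Topology
open scoped ENNReal

variable {E : ℕ → Type} [∀ n, NormedAddCommGroup (E n)] [∀ n, NormedSpace ℝ (E n)]

private noncomputable def czi (n : ℕ) : E n →L[ℝ] lp E ∞ :=
  (lp.lsingle (𝕜 := ℝ) ∞ n).mkContinuous 1 (by
    intro a
    rw [one_mul]
    refine lp.norm_le_of_forall_le (norm_nonneg _) fun i => ?_
    change ‖(lp.single ∞ n a : lp E ∞) i‖ ≤ ‖a‖
    by_cases h : i = n
    · subst h
      rw [lp.single_apply_self]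
    · rw [lp.single_apply_ne _ _ _ h, norm_zero]
      exact norm_nonneg _)

private lemma czi_apply (n : ℕ) (a : E n) : czi n a = lp.single ∞ n a := rfl

private lemma cz_sum_apply (x : ∀ n, E n) (N i : ℕ) :
    (∑ n ∈ Finset.range N, czi n (x n) : lp E ∞) i = if i < N then x i else 0 := by
  induction N with
  | zero => simp
  | succ N ih =>
    rw [Finset.sum_range_succ, lp.coeFn_add, Pi.add_apply, ih, czi_apply]
    by_cases h : i = N
    · subst h
      rw [lp.single_apply_self]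
      simp
    · rw [lp.single_apply_ne _ _ _ h, add_zero]
      by_cases h2 : i < N
      · rw [if_pos h2, if_pos (by omega)]
      · rw [if_neg h2, if_neg (by omega)]

private lemma cz_sum_norm (g : lp E ∞ →L[ℝ] ℝ) (N : ℕ) :
    ∑ n ∈ Finset.range N, ‖g.comp (czi n)‖ ≤ ‖g‖ := by
  refine le_of_forall_pos_le_add fun δ hδ => ?_
  have hx : ∀ n : ℕ, ∃ x : E n, ‖x‖ ≤ 1 ∧ ‖g.comp (czi n)‖ - δ / (N + 1) ≤ g (czi n x) := by
    intro n
    have h1 : ‖g.comp (czi n)‖ - δ / (N + 1) < ‖g.comp (czi n)‖ := by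
      have : 0 < δ / (N + 1) := by positivity
      linarith
    obtain ⟨x, hx1, hx2⟩ := (g.comp (czi n)).exists_lt_apply_of_lt_opNorm h1
    rcases le_total 0 (g (czi n x)) with h | h
    · refine ⟨x, hx1.le, ?_⟩
      have e : ‖(g.comp (czi n)) x‖ = g (czi n x) := by
        rw [ContinuousLinearMap.comp_apply, Real.norm_eq_abs, abs_of_nonneg h]
      rw [e] at hx2
      exact hx2.le
    · refine ⟨-x, by rw [norm_neg]; exact hx1.le, ?_⟩
      have e : ‖(g.comp (czi n)) x‖ = g (czi n (-x)) := by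
        rw [ContinuousLinearMap.comp_apply, Real.norm_eq_abs, abs_of_nonpos h, map_neg, map_neg]
      rw [e] at hx2
      exact hx2.le
  choose x hx1 hx2 using hx
  have h1 : ‖(∑ n ∈ Finset.range N, czi n (x n) : lp E ∞)‖ ≤ 1 := by
    refine lp.norm_le_of_forall_le zero_le_one fun i => ?_
    rw [cz_sum_apply]
    by_cases h : i < N
    · rw [if_pos h]; exact hx1 i
    · rw [if_neg h, norm_zero]; exact zero_le_one
  have h2 : g (∑ n ∈ Finset.range N, czi n (x n)) ≤ ‖g‖ := by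
    calc g (∑ n ∈ Finset.range N, czi n (x n)) ≤ ‖g (∑ n ∈ Finset.range N, czi n (x n))‖ :=
          le_abs_self _
      _ ≤ ‖g‖ * ‖(∑ n ∈ Finset.range N, czi n (x n) : lp E ∞)‖ := g.le_opNorm _
      _ ≤ ‖g‖ * 1 := by gcongr
      _ = ‖g‖ := mul_one _
  rw [map_sum] at h2
  have h3 : ∑ n ∈ Finset.range N, (‖g.comp (czi n)‖ - δ / (N + 1)) ≤
      ∑ n ∈ Finset.range N, g (czi n (x n)) := Finset.sum_le_sum fun n _ => hx2 n
  rw [Finset.sum_sub_distrib, Finset.sum_const, Finset.card_range, nsmul_eq_mul] at h3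
  have h4 : (N : ℝ) * (δ / (N + 1)) ≤ δ := by
    rw [← mul_div_assoc, div_le_iff₀ (by positivity)]
    nlinarith
  linarith

variable {Z : Type} [NormedAddCommGroup Z] [NormedSpace ℝ Z]

/-- the operator into the `ℓ_∞`-sum -/
private noncomputable def czA (Q : ∀ n, Z →L[ℝ] E n) {M : ℝ} (hQ : ∀ n, ‖Q n‖ ≤ M) : Z →L[ℝ] lp E ∞ :=
  LinearMap.mkContinuous
    { toFun := fun z => ⟨fun n => Q n z, memℓp_infty ⟨M * ‖z‖, by
        rintro _ ⟨n, rfl⟩
        exact ((Q n).le_opNorm z).trans (by have := hQ n; gcongr)⟩⟩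
      map_add' := fun z w => by ext n; exact map_add (Q n) z w
      map_smul' := fun r z => by ext n; exact map_smul (Q n) r z } (|M|) (by
    intro z
    refine lp.norm_le_of_forall_le (by positivity) fun n => ?_
    change ‖Q n z‖ ≤ |M| * ‖z‖
    refine ((Q n).le_opNorm z).trans ?_
    have := (hQ n).trans (le_abs_self M)
    gcongr)

private lemma czA_apply (Q : ∀ n, Z →L[ℝ] E n) {M : ℝ} (hQ : ∀ n, ‖Q n‖ ≤ M) (z : Z) (n : ℕ) :
    czA Q hQ z n = Q n z := rfl

private lemma cz_tendsto (Q : ∀ n, Z →L[ℝ] E n) {M : ℝ} (hQ : ∀ n, ‖Q n‖ ≤ M)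
    (h0 : ∀ z, Tendsto (fun n => ‖Q n z‖) atTop (𝓝 0)) (g : lp E ∞ →L[ℝ] ℝ) (z : Z) :
    Tendsto (fun N => ∑ n ∈ Finset.range N, g (czi n (Q n z))) atTop (𝓝 (g (czA Q hQ z))) := by
  have h1 : Tendsto (fun N => (∑ n ∈ Finset.range N, czi n (Q n z) : lp E ∞)) atTop
      (𝓝 (czA Q hQ z)) := by
    rw [Metric.tendsto_atTop]
    intro ε hε
    obtain ⟨N₀, hN₀⟩ := (Metric.tendsto_atTop.mp (h0 z)) (ε / 2) (half_pos hε)
    refine ⟨N₀, fun N hN => ?_⟩
    rw [dist_eq_norm]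
    refine lt_of_le_of_lt (b := ε / 2) ?_ (half_lt_self hε)
    refine lp.norm_le_of_forall_le (half_pos hε).le fun i => ?_
    rw [lp.coeFn_sub, Pi.sub_apply, cz_sum_apply, czA_apply]
    by_cases h : i < N
    · rw [if_pos h, sub_self, norm_zero]
      exact (half_pos hε).le
    · rw [if_neg h, zero_sub, norm_neg]
      have h2 := hN₀ i (by omega)
      rw [Real.dist_eq, sub_zero, abs_of_nonneg (norm_nonneg _)] at h2
      exact h2.le
  have h2 := (g.continuous.tendsto _).comp h1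
  refine h2.congr fun N => ?_
  rw [Function.comp_apply, map_sum]

theorem smallBall_c0 (Q : ∀ n, Z →L[ℝ] E n) {M c : ℝ} (hc : 0 < c) (hQ : ∀ n, ‖Q n‖ ≤ M)
    (h0 : ∀ z, Tendsto (fun n => ‖Q n z‖) atTop (𝓝 0)) (hlow : ∀ z, ∃ n, c * ‖z‖ ≤ ‖Q n z‖)
    (hS : ∀ n, SmallBall (E n)) : SmallBall Z := by
  have hT : Small (⋃ n, adj (Q n) '' {u : E n →L[ℝ] ℝ | ‖u‖ ≤ 1}) := by
    refine Small.seq (f := 0) |M| (fun n => small_map (Q n) (hS n)) ?_ ?_
    · rintro n _ ⟨u, hu, rfl⟩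
      have hu : ‖u‖ ≤ 1 := hu
      calc ‖adj (Q n) u‖ ≤ ‖u‖ * ‖Q n‖ := adj_norm_le _ _
        _ ≤ 1 * |M| := by
          have := (hQ n).trans (le_abs_self M)
          gcongr
        _ = |M| := one_mul _
    · intro z ε hε
      obtain ⟨N₀, hN₀⟩ := (Metric.tendsto_atTop.mp (h0 z)) ε hε
      refine ⟨N₀, ?_⟩
      rintro n hn _ ⟨u, hu, rfl⟩
      have hu : ‖u‖ ≤ 1 := hu
      have h2 := hN₀ n hn
      rw [Real.dist_eq, sub_zero, abs_of_nonneg (norm_nonneg _)] at h2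
      calc |adj (Q n) u z - (0 : Z →L[ℝ] ℝ) z| = ‖u (Q n z)‖ := by
            rw [_root_.zero_apply, sub_zero]
            rfl
        _ ≤ ‖u‖ * ‖Q n z‖ := u.le_opNorm _
        _ ≤ 1 * ε := by gcongr
        _ = ε := one_mul ε
  refine (hT.hull (1 / c)).sub ?_
  intro t ht Λ d hd h
  have ht : ‖t‖ ≤ 1 := ht
  have hA : ∀ z, c * ‖z‖ ≤ ‖czA Q hQ z‖ := by
    intro z
    obtain ⟨n, hn⟩ := hlow z
    refine hn.trans ?_
    rw [← czA_apply Q hQ z n]
    exact lp.norm_apply_le_norm ENNReal.top_ne_zero _ n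
  obtain ⟨g, hg, hgt⟩ := exists_factor (czA Q hQ) hc hA t
  have hg1 : ‖g‖ ≤ 1 / c := hg.trans (by gcongr)
  let a : ℕ → ℝ := fun n => ‖g.comp (czi n)‖
  have ha0 : ∀ n, 0 ≤ a n := fun n => norm_nonneg _
  have hsum : Summable a := summable_of_sum_range_le ha0 (cz_sum_norm g)
  let s : ℕ → (Z →L[ℝ] ℝ) := fun n => (g.comp (czi n)).comp (Q n)
  have hs : ∀ n, |Λ (s n)| ≤ a n * d := by
    intro n
    rcases (ha0 n).eq_or_lt with h1 | h1
    · have h2 : g.comp (czi n) = 0 := norm_eq_zero.mp h1.symm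
      have h3 : s n = 0 := by
        change (g.comp (czi n)).comp (Q n) = 0
        rw [h2]
        exact ContinuousLinearMap.zero_comp _
      rw [h3, map_zero, abs_zero, ← h1, zero_mul]
    · have h2 : ‖(a n)⁻¹ • g.comp (czi n)‖ ≤ 1 := by
        rw [norm_smul, norm_inv, Real.norm_eq_abs, abs_of_pos h1]
        exact (inv_mul_cancel₀ h1.ne').le
      have h3 := h (adj (Q n) ((a n)⁻¹ • g.comp (czi n)))
        (Set.mem_iUnion.mpr ⟨n, _, h2, rfl⟩)
      rw [map_smul, map_smul, smul_eq_mul, abs_mul, abs_inv, abs_of_pos h1,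
        inv_mul_le_iff₀ h1] at h3
      exact h3
  let T : ℕ → (Z →L[ℝ] ℝ) := fun N => ∑ n ∈ Finset.range N, s n
  have hTz : ∀ N z, T N z = ∑ n ∈ Finset.range N, g (czi n (Q n z)) := by
    intro N z
    change (∑ n ∈ Finset.range N, s n) z = _
    rw [sum_apply]
    rfl
  have htail : ∀ N, ‖t - T N‖ ≤ (∑' n, a (n + N)) * |M| := by
    intro N
    refine ContinuousLinearMap.opNorm_le_bound _
      (mul_nonneg (tsum_nonneg fun n => ha0 _) (abs_nonneg _)) fun z => ?_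
    have h1 : Tendsto (fun N' => T N' z - T N z) atTop (𝓝 (t z - T N z)) := by
      have h2 := cz_tendsto Q hQ h0 g z
      have h3 : g (czA Q hQ z) = t z := by
        rw [← hgt]
        rfl
      rw [h3] at h2
      refine (h2.congr fun N' => ?_).sub_const _
      rw [hTz]
    have h4 : Tendsto (fun N' => ‖T N' z - T N z‖) atTop (𝓝 ‖t z - T N z‖) := h1.norm
    rw [_root_.sub_apply]
    refine le_of_tendsto h4 (Filter.eventually_atTop.mpr ⟨N, fun N' hN' => ?_⟩)
    rw [hTz, hTz]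
    obtain ⟨k, rfl⟩ := Nat.exists_eq_add_of_le hN'
    rw [Finset.sum_range_add, add_sub_cancel_left]
    calc ‖∑ x ∈ Finset.range k, g (czi (N + x) (Q (N + x) z))‖
        ≤ ∑ x ∈ Finset.range k, ‖g (czi (N + x) (Q (N + x) z))‖ := norm_sum_le _ _
      _ ≤ ∑ x ∈ Finset.range k, a (x + N) * (|M| * ‖z‖) := by
        refine Finset.sum_le_sum fun x _ => ?_
        have h5 : ‖g (czi (N + x) (Q (N + x) z))‖ ≤ a (N + x) * ‖Q (N + x) z‖ :=
          (g.comp (czi (N + x))).le_opNorm _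
        have h6 : ‖Q (N + x) z‖ ≤ |M| * ‖z‖ := by
          refine ((Q (N + x)).le_opNorm z).trans ?_
          have := (hQ (N + x)).trans (le_abs_self M)
          gcongr
        rw [add_comm x N]
        refine h5.trans ?_
        have := ha0 (N + x)
        gcongr
      _ = (∑ x ∈ Finset.range k, a (x + N)) * (|M| * ‖z‖) := by rw [Finset.sum_mul]
      _ ≤ (∑' n, a (n + N)) * (|M| * ‖z‖) := by
        have h7 : ∑ x ∈ Finset.range k, a (x + N) ≤ ∑' n, a (n + N) :=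
          Summable.sum_le_tsum _ (fun n _ => ha0 _) ((summable_nat_add_iff N).mpr hsum)
        gcongr
      _ = (∑' n, a (n + N)) * |M| * ‖z‖ := by ring
  have hlim : Tendsto (fun N => ‖g‖ * d + ‖Λ‖ * ((∑' n, a (n + N)) * |M|)) atTop
      (𝓝 (‖g‖ * d + ‖Λ‖ * (0 * |M|))) :=
    tendsto_const_nhds.add (((tendsto_sum_nat_add a).mul_const _).const_mul _)
  have hfin : |Λ t| ≤ ‖g‖ * d + ‖Λ‖ * (0 * |M|) := by
    refine ge_of_tendsto hlim (Filter.Eventually.of_forall fun N => ?_)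
    have e : Λ t = Λ (T N) + Λ (t - T N) := by rw [← map_add, add_sub_cancel]
    rw [e]
    have h1 : |Λ (T N)| ≤ ‖g‖ * d := by
      change |Λ (∑ n ∈ Finset.range N, s n)| ≤ ‖g‖ * d
      rw [map_sum]
      calc |∑ n ∈ Finset.range N, Λ (s n)| ≤ ∑ n ∈ Finset.range N, |Λ (s n)| :=
            Finset.abs_sum_le_sum_abs _ _
        _ ≤ ∑ n ∈ Finset.range N, a n * d := Finset.sum_le_sum fun n _ => hs n
        _ = (∑ n ∈ Finset.range N, a n) * d := by rw [Finset.sum_mul]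
        _ ≤ ‖g‖ * d := by
          have := cz_sum_norm g N
          gcongr
    have h2 : |Λ (t - T N)| ≤ ‖Λ‖ * ((∑' n, a (n + N)) * |M|) := by
      calc |Λ (t - T N)| ≤ ‖Λ‖ * ‖t - T N‖ := Λ.le_opNorm _
        _ ≤ _ := by
          have := htail N
          gcongr
    exact (abs_add_le _ _).trans (add_le_add h1 h2)
  rw [zero_mul, mul_zero, add_zero] at hfin
  refine hfin.trans ?_
  gcongr

end Pool.Agent.H75.SG
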