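import Mathlib

/-!
# Small subsets of a dual space (MP_6aa5e3_an, lenlist row 63): definitions

`X` is a real normed space, `X →L[ℝ] ℝ` its dual.

* `Hull D T` is `D` times the norm closed absolutely convex hull of `T`, written by duality with the bidual.
* `Small` is the least family of subsets of the dual containing the empty set and closed under subsets, `Hull D` for
  every `D`, norm approximation and unions of uniformly bounded sequences of sets converging weak* to one functional.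
* `SmallBall X`: the closed unit ball of the dual is small.
* `EmbC X`: `X` embeds isomorphically into `C(L)` for some countable compact Hausdorff `L`.
-/

namespace Pool.Agent.H75.SG

/-- `D` times the norm closed absolutely convex hull of `T` (by duality). -/
def Hull {X : Type} [NormedAddCommGroup X] [NormedSpace ℝ X] (D : ℝ) (T : Set (X →L[ℝ] ℝ)) :
    Set (X →L[ℝ] ℝ) :=
  {t | ∀ (Λ : (X →L[ℝ] ℝ) →L[ℝ] ℝ) (c : ℝ), 0 ≤ c → (∀ g ∈ T, |Λ g| ≤ c) → |Λ t| ≤ D * c}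

/-- The family of small sets of functionals. -/
inductive Small {X : Type} [NormedAddCommGroup X] [NormedSpace ℝ X] : Set (X →L[ℝ] ℝ) → Prop
  | empty : Small ∅
  | sub {S T : Set (X →L[ℝ] ℝ)} : Small T → S ⊆ T → Small S
  | hull {T : Set (X →L[ℝ] ℝ)} (D : ℝ) : Small T → Small (Hull D T)
  | appr {S : Set (X →L[ℝ] ℝ)} (T : ℝ → Set (X →L[ℝ] ℝ)) : (∀ ρ : ℝ, 0 < ρ → Small (T ρ)) →
      (∀ ρ : ℝ, 0 < ρ → ∀ s ∈ S, ∃ t ∈ T ρ, ‖s - t‖ ≤ ρ) → Small S
  | lim {f : X →L[ℝ] ℝ} {W : ℕ → Set (X →L[ℝ] ℝ)} (M : ℝ) : (∀ n, Small (W n)) →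
      (∀ n, ∀ g ∈ W n, ‖g‖ ≤ M) →
      (∀ x : X, ∀ ε : ℝ, 0 < ε → ∃ n₀ : ℕ, ∀ n, n₀ ≤ n → ∀ g ∈ W n, |g x - f x| ≤ ε) →
      Small (insert f (⋃ n, W n))

/-- The unit ball of the dual is small. -/
def SmallBall (X : Type) [NormedAddCommGroup X] [NormedSpace ℝ X] : Prop :=
  Small {t : X →L[ℝ] ℝ | ‖t‖ ≤ 1}

/-- `X` embeds isomorphically into `C(L)`, `L` a countable compact Hausdorff space. -/
def EmbC (X : Type) [NormedAddCommGroup X] [NormedSpace ℝ X] : Prop :=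
  ∃ (L : Type) (_ : TopologicalSpace L) (_ : CompactSpace L) (_ : T2Space L),
    Countable L ∧ ∃ (T : X →L[ℝ] C(L, ℝ)) (c : ℝ), 0 < c ∧ ∀ x : X, c * ‖x‖ ≤ ‖T x‖

/-- The functionals on `X` of norm at most `M` whose restriction to `Y` lies in `S`. -/
def Lift {X : Type} [NormedAddCommGroup X] [NormedSpace ℝ X] (Y : Submodule ℝ X) (M : ℝ)
    (S : Set (Y →L[ℝ] ℝ)) : Set (X →L[ℝ] ℝ) :=
  {t | ‖t‖ ≤ M ∧ t.comp Y.subtypeL ∈ S}

end Pool.Agent.H75.SG
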