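import Pool.Agent.H87.CS.Rie

/-!
# Module DuC: the dual of `C(L)`, `L` countable compact, is `ℓ₁(L)` (in the form needed)

By the Riesz theorem `m = ∫ dμ₁ - ∫ dμ₂`; up to `ε` the measures live on a finite set `S`; `a s = μ₁ {s} - μ₂ {s}`,
`Σ_S |a s| ≤ ‖m‖ + ε` (Tietze extension of the sign of `a` on `S`) and `‖m - Σ_S a s δ_s‖ ≤ ε`.
-/

namespace Pool.Agent.H75.SG

open MeasureTheory Set

set_option linter.unusedSectionVars false

variable {L : Type} [TopologicalSpace L] [CompactSpace L] [T2Space L] [Countable L]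

/-- point evaluation -/
noncomputable def dl (s : L) : C(L, ℝ) →L[ℝ] ℝ := ContinuousMap.evalCLM ℝ s

@[simp] theorem dl_apply (s : L) (f : C(L, ℝ)) : dl s f = f s := rfl

private lemma duc_fin [MeasurableSpace L] [BorelSpace L] (μ : Measure L) [IsFiniteMeasure μ] {ε : ℝ}
    (hε : 0 < ε) : ∃ S : Finset L, μ.real (Sᶜ : Set L) ≤ ε := by
  classical
  rcases isEmpty_or_nonempty L with h | h
  · refine ⟨∅, ?_⟩
    have : (Set.univ : Set L) = ∅ := Set.univ_eq_empty_iff.mpr h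
    simp [this, hε.le]
  · obtain ⟨e, he⟩ := exists_surjective_nat L
    let S : ℕ → Finset L := fun n => (Finset.range n).image e
    have hS : Monotone S := fun n m hnm => Finset.image_subset_image (Finset.range_mono hnm)
    have hU : ⋃ n, (S n : Set L) = Set.univ := by
      rw [Set.eq_univ_iff_forall]
      intro x
      obtain ⟨j, hj⟩ := he x
      exact Set.mem_iUnion.mpr ⟨j + 1, by
        rw [Finset.mem_coe, Finset.mem_image]
        exact ⟨j, Finset.mem_range.mpr (Nat.lt_succ_self j), hj⟩⟩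
    have h1 : Filter.Tendsto (fun n => μ (S n : Set L)) Filter.atTop (nhds (μ Set.univ)) := by
      rw [← hU]
      exact tendsto_measure_iUnion_atTop (fun n m hnm => by exact_mod_cast hS hnm)
    have h2 : Filter.Tendsto (fun n => μ.real (S n : Set L)) Filter.atTop (nhds (μ.real Set.univ)) :=
      (ENNReal.tendsto_toReal (measure_ne_top μ _)).comp h1
    obtain ⟨n, hn⟩ := (Metric.tendsto_atTop.mp h2 ε hε)
    refine ⟨S n, ?_⟩
    have h3 := hn n le_rfl
    rw [Real.dist_eq] at h3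
    have h4 : μ.real (S n : Set L) + μ.real (S n : Set L)ᶜ = μ.real Set.univ :=
      measureReal_add_measureReal_compl (S n).measurableSet
    have h5 := (abs_lt.mp h3).1
    linarith

private lemma duc_int [MeasurableSpace L] [BorelSpace L] (μ : Measure L) [IsFiniteMeasure μ]
    (f : C(L, ℝ)) : Integrable (fun t => f t) μ := by
  refine Integrable.of_bound f.continuous.aestronglyMeasurable ‖f‖ ?_
  exact Filter.Eventually.of_forall fun t => f.norm_coe_le_norm t

private lemma duc_split [MeasurableSpace L] [BorelSpace L] (μ : Measure L) [IsFiniteMeasure μ]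
    (S : Finset L) {ε : ℝ} (hS : μ.real (Sᶜ : Set L) ≤ ε) (f : C(L, ℝ)) :
    |∫ t, f t ∂μ - ∑ s ∈ S, μ.real {s} * f s| ≤ ε * ‖f‖ := by
  have h1 := integral_add_compl (μ := μ) (S.measurableSet) (duc_int μ f)
  have h2 : ∫ t in (S : Set L), f t ∂μ = ∑ s ∈ S, μ.real {s} * f s := by
    rw [setIntegral_finset S (duc_int μ f).integrableOn]
    rfl
  have h3 : ‖∫ t in (S : Set L)ᶜ, f t ∂μ‖ ≤ ‖f‖ * μ.real (S : Set L)ᶜ :=
    norm_setIntegral_le_of_norm_le_const (measure_lt_top μ _) fun t _ => f.norm_coe_le_norm t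
  rw [← h1, h2, add_sub_cancel_left]
  calc |∫ t in (S : Set L)ᶜ, f t ∂μ| = ‖∫ t in (S : Set L)ᶜ, f t ∂μ‖ := rfl
    _ ≤ ‖f‖ * μ.real (S : Set L)ᶜ := h3
    _ ≤ ‖f‖ * ε := by gcongr
    _ = ε * ‖f‖ := by ring

private lemma duc_tietze (S : Finset L) (a : L → ℝ) :
    ∃ u : C(L, ℝ), (∀ t, |u t| ≤ 1) ∧ ∀ s ∈ S, u s * a s = |a s| := by
  let g : C((S : Set L), ℝ) := ⟨fun s => SignType.sign (a s), continuous_of_discreteTopology⟩
  obtain ⟨u, hu, hus⟩ := ContinuousMap.exists_restrict_eq_forall_mem_of_closed g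
    (t := Set.Icc (-1 : ℝ) 1) (by
      intro s
      change ((SignType.sign (a s) : SignType) : ℝ) ∈ Set.Icc (-1 : ℝ) 1
      rcases SignType.sign (a s) with _ | _ | _ <;> simp) ⟨0, by simp⟩ S.finite_toSet.isClosed
  refine ⟨u, fun t => abs_le.mpr (hu t), fun s hs => ?_⟩
  have h1 : u s = SignType.sign (a s) := by
    exact DFunLike.congr_fun hus ⟨s, hs⟩
  rw [h1]
  exact sign_mul_self (a s)

/-- every functional on `C(L)` is, up to `ε`, a finite combination of point evaluations -/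
theorem dual_approx (m : C(L, ℝ) →L[ℝ] ℝ) {ε : ℝ} (hε : 0 < ε) :
    ∃ (S : Finset L) (a : L → ℝ), ∑ s ∈ S, |a s| ≤ ‖m‖ + ε ∧ ‖m - ∑ s ∈ S, a s • dl s‖ ≤ ε := by
  classical
  let _ : MeasurableSpace L := borel L
  have : BorelSpace L := ⟨rfl⟩
  obtain ⟨μ₁, μ₂, _, _, hm⟩ := Pool.Agent.H87.CS.signed_riesz m
  obtain ⟨S₁, hS₁⟩ := duc_fin μ₁ (half_pos hε)
  obtain ⟨S₂, hS₂⟩ := duc_fin μ₂ (half_pos hε)
  let S := S₁ ∪ S₂
  have hS₁' : μ₁.real (Sᶜ : Set L) ≤ ε / 2 := by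
    refine le_trans (measureReal_mono ?_) hS₁
    intro x hx hx1
    exact hx (by rw [Finset.mem_coe]; exact Finset.mem_union_left _ hx1)
  have hS₂' : μ₂.real (Sᶜ : Set L) ≤ ε / 2 := by
    refine le_trans (measureReal_mono ?_) hS₂
    intro x hx hx1
    exact hx (by rw [Finset.mem_coe]; exact Finset.mem_union_right _ hx1)
  let a : L → ℝ := fun s => μ₁.real {s} - μ₂.real {s}
  have hA : ∀ f : C(L, ℝ), |m f - ∑ s ∈ S, a s * f s| ≤ ε * ‖f‖ := by
    intro f
    have h1 := duc_split μ₁ S hS₁' f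
    have h2 := duc_split μ₂ S hS₂' f
    have e : m f - ∑ s ∈ S, a s * f s = (∫ t, f t ∂μ₁ - ∑ s ∈ S, μ₁.real {s} * f s) -
        (∫ t, f t ∂μ₂ - ∑ s ∈ S, μ₂.real {s} * f s) := by
      rw [hm f]
      have : ∑ s ∈ S, a s * f s = ∑ s ∈ S, μ₁.real {s} * f s - ∑ s ∈ S, μ₂.real {s} * f s := by
        rw [← Finset.sum_sub_distrib]
        exact Finset.sum_congr rfl fun s _ => by ring
      rw [this]
      ring
    rw [e]
    calc _ ≤ _ := abs_sub _ _
      _ ≤ ε / 2 * ‖f‖ + ε / 2 * ‖f‖ := add_le_add h1 h2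
      _ = ε * ‖f‖ := by ring
  refine ⟨S, a, ?_, ?_⟩
  · obtain ⟨u, hu1, hu2⟩ := duc_tietze S a
    have hun : ‖u‖ ≤ 1 := (ContinuousMap.norm_le _ zero_le_one).mpr fun t => hu1 t
    have h1 := hA u
    have h2 : ∑ s ∈ S, a s * u s = ∑ s ∈ S, |a s| :=
      Finset.sum_congr rfl fun s hs => by rw [mul_comm]; exact hu2 s hs
    rw [h2] at h1
    have h3 : m u ≤ ‖m‖ := by
      calc m u ≤ ‖m u‖ := le_abs_self _
        _ ≤ ‖m‖ * ‖u‖ := m.le_opNorm u
        _ ≤ ‖m‖ * 1 := by gcongr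
        _ = ‖m‖ := mul_one _
    have h4 := (abs_le.mp h1).1
    have h5 : ε * ‖u‖ ≤ ε * 1 := by gcongr
    linarith
  · refine ContinuousLinearMap.opNorm_le_bound _ hε.le fun f => ?_
    have e : (m - ∑ s ∈ S, a s • dl s) f = m f - ∑ s ∈ S, a s * f s := by
      simp [sum_apply]
    rw [e]
    exact hA f

end Pool.Agent.H75.SG
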