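import Pool.Agent.H75.SG.DuC
import Pool.Agent.H75.SG.SMap
import Pool.Agent.H75.SG.Scat

/-!
# Module Rep: spaces which embed in `C(L)`, `L` countable compact, have small dual balls and separable duals

The functionals `x ↦ (S x) s`, `s ∈ L`, form a small set (induction `scat`), and by `dual_approx` and Hahn-Banach every
`t` lies in `Hull (‖t‖ / c)` of them.
-/

namespace Pool.Agent.H75.SG

open Set TopologicalSpace

variable {X : Type} [NormedAddCommGroup X] [NormedSpace ℝ X]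
variable {L : Type} [TopologicalSpace L] [CompactSpace L] [T2Space L] [Countable L]

/-- a bounded pointwise continuous image of a countable compact space is small -/
theorem small_range (f : L → (X →L[ℝ] ℝ)) (hf : ∀ x, Continuous fun s => f s x) {M : ℝ}
    (hM : ∀ s, ‖f s‖ ≤ M) : Small (Set.range f) := by
  have h := scat (L := L) (fun U => Small (f '' U)) (by rw [Set.image_empty]; exact Small.empty)
    (fun U V hUV hV => hV.sub (Set.image_mono hUV))
    (fun U V hU hV => (hU.union hV).sub (by rw [Set.image_union]))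
    (by
      intro s W hW hconv
      have h1 := Small.lim (f := f s) (W := fun i => f '' W i) M hW
        (by rintro n _ ⟨x, _, rfl⟩; exact hM x)
        (by
          intro x ε hε
          obtain ⟨i₀, hi₀⟩ := hconv {s' | |f s' x - f s x| < ε}
            (isOpen_lt ((hf x).sub continuous_const).abs continuous_const)
            (by
              change |f s x - f s x| < ε
              rw [sub_self, abs_zero]
              exact hε)
          refine ⟨i₀, ?_⟩
          rintro n hn _ ⟨s', hs', rfl⟩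
          exact le_of_lt (hi₀ n hn hs'))
      refine h1.sub ?_
      rintro _ ⟨s', hs', rfl⟩
      rcases Set.mem_insert_iff.mp hs' with rfl | hs'
      · exact Set.mem_insert _ _
      · obtain ⟨i, hi⟩ := Set.mem_iUnion.mp hs'
        exact Set.mem_insert_of_mem _ (Set.mem_iUnion.mpr ⟨i, s', hi, rfl⟩))
  rw [← Set.image_univ]
  exact h

/-- the functionals `x ↦ (S x) s` -/
noncomputable def coord (S : X →L[ℝ] C(L, ℝ)) (s : L) : X →L[ℝ] ℝ := (dl s).comp S

theorem small_coord (S : X →L[ℝ] C(L, ℝ)) : Small (Set.range (coord S)) := by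
  refine small_range (coord S) (fun x => (S x).continuous) (M := ‖S‖) fun s => ?_
  refine ContinuousLinearMap.opNorm_le_bound _ S.opNorm_nonneg fun x => ?_
  calc ‖coord S s x‖ = ‖S x s‖ := rfl
    _ ≤ ‖S x‖ := (S x).norm_coe_le_norm s
    _ ≤ ‖S‖ * ‖x‖ := S.le_opNorm x

theorem mem_hull_coord (S : X →L[ℝ] C(L, ℝ)) {c : ℝ} (hc : 0 < c) (hS : ∀ x, c * ‖x‖ ≤ ‖S x‖)
    (t : X →L[ℝ] ℝ) : t ∈ Hull (‖t‖ / c) (Set.range (coord S)) := by
  intro Λ d hd h
  obtain ⟨m, hm, hmt⟩ := exists_factor S hc hS t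
  refine le_of_forall_pos_le_add fun δ hδ => ?_
  obtain ⟨ε, hε, hεδ⟩ : ∃ ε : ℝ, 0 < ε ∧ ε * d + ‖Λ‖ * (ε * ‖S‖) ≤ δ := by
    refine ⟨δ / (d + ‖Λ‖ * ‖S‖ + 1), by positivity, ?_⟩
    have h0 : 0 < d + ‖Λ‖ * ‖S‖ + 1 := by positivity
    calc δ / (d + ‖Λ‖ * ‖S‖ + 1) * d + ‖Λ‖ * (δ / (d + ‖Λ‖ * ‖S‖ + 1) * ‖S‖)
        = δ * ((d + ‖Λ‖ * ‖S‖) / (d + ‖Λ‖ * ‖S‖ + 1)) := by
          field_simp
      _ ≤ δ * 1 := by
          have : (d + ‖Λ‖ * ‖S‖) / (d + ‖Λ‖ * ‖S‖ + 1) ≤ 1 := by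
            rw [div_le_one h0]
            linarith
          gcongr
      _ = δ := mul_one δ
  obtain ⟨F, a, ha, hma⟩ := dual_approx m hε
  have e1 : t = ∑ s ∈ F, a s • coord S s + (m - ∑ s ∈ F, a s • dl s).comp S := by
    rw [← hmt]
    ext x
    simp [coord, sum_apply]
  have h1 : |Λ (∑ s ∈ F, a s • coord S s)| ≤ (‖t‖ / c + ε) * d := by
    rw [map_sum]
    calc |∑ s ∈ F, Λ (a s • coord S s)| ≤ ∑ s ∈ F, |Λ (a s • coord S s)| :=
          Finset.abs_sum_le_sum_abs _ _
      _ ≤ ∑ s ∈ F, |a s| * d := by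
        refine Finset.sum_le_sum fun s _ => ?_
        rw [map_smul, smul_eq_mul, abs_mul]
        have := h (coord S s) ⟨s, rfl⟩
        gcongr
      _ = (∑ s ∈ F, |a s|) * d := by rw [Finset.sum_mul]
      _ ≤ (‖t‖ / c + ε) * d := by
        have : ∑ s ∈ F, |a s| ≤ ‖t‖ / c + ε := ha.trans (by linarith)
        gcongr
  have h2 : |Λ ((m - ∑ s ∈ F, a s • dl s).comp S)| ≤ ‖Λ‖ * (ε * ‖S‖) := by
    calc |Λ ((m - ∑ s ∈ F, a s • dl s).comp S)| ≤ ‖Λ‖ * ‖(m - ∑ s ∈ F, a s • dl s).comp S‖ :=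
          Λ.le_opNorm _
      _ ≤ ‖Λ‖ * (‖m - ∑ s ∈ F, a s • dl s‖ * ‖S‖) := by
        gcongr
        exact ContinuousLinearMap.opNorm_comp_le _ _
      _ ≤ ‖Λ‖ * (ε * ‖S‖) := by gcongr
  have h3 : Λ t = Λ (∑ s ∈ F, a s • coord S s) + Λ ((m - ∑ s ∈ F, a s • dl s).comp S) := by
    rw [← map_add, ← e1]
  rw [h3]
  calc _ ≤ _ := abs_add_le _ _
    _ ≤ (‖t‖ / c + ε) * d + ‖Λ‖ * (ε * ‖S‖) := add_le_add h1 h2
    _ = ‖t‖ / c * d + (ε * d + ‖Λ‖ * (ε * ‖S‖)) := by ring
    _ ≤ ‖t‖ / c * d + δ := by linarith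

theorem smallBall_of_emb (h : EmbC X) : SmallBall X := by
  obtain ⟨L, _, _, _, hL, S, c, hc, hS⟩ := h
  refine ((small_coord S).hull (1 / c)).sub ?_
  intro t ht Λ d hd h'
  have ht : ‖t‖ ≤ 1 := ht
  have h1 := mem_hull_coord S hc hS t Λ d hd h'
  refine h1.trans ?_
  have : ‖t‖ / c ≤ 1 / c := by gcongr
  gcongr

theorem separable_of_emb (h : EmbC X) : SeparableSpace (X →L[ℝ] ℝ) := by
  obtain ⟨L, _, _, _, hL, S, c, hc, hS⟩ := h
  have h1 : closure ((Submodule.span ℝ (Set.range (coord S)) : Submodule ℝ (X →L[ℝ] ℝ)) :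
      Set (X →L[ℝ] ℝ)) = Set.univ := by
    rw [Set.eq_univ_iff_forall]
    intro t
    by_contra hcon
    obtain ⟨Λ, u, hu1, hu2⟩ := geometric_hahn_banach_closed_point
      ((Submodule.convex _).closure) isClosed_closure hcon
    have h2 : ∀ s, Λ (coord S s) = 0 := by
      intro s
      by_contra hne
      have h3 : ∀ r : ℝ, r * Λ (coord S s) < u := by
        intro r
        have := hu1 (r • coord S s) (subset_closure
          (Submodule.smul_mem _ r (Submodule.subset_span ⟨s, rfl⟩)))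
        simpa using this
      have h4 := h3 ((u + 1) / Λ (coord S s))
      rw [div_mul_cancel₀ _ hne] at h4
      linarith
    have h5 := mem_hull_coord S hc hS t Λ 0 le_rfl (by
      rintro _ ⟨s, rfl⟩
      rw [h2 s, abs_zero])
    rw [mul_zero] at h5
    have h6 : Λ t = 0 := abs_eq_zero.mp (le_antisymm h5 (abs_nonneg _))
    have h7 := hu1 0 (subset_closure (Submodule.zero_mem _))
    rw [map_zero] at h7
    linarith
  have h2 : IsSeparable (Set.univ : Set (X →L[ℝ] ℝ)) := by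
    rw [← h1]
    exact ((Set.countable_range (coord S)).isSeparable.span).closure
  exact isSeparable_univ_iff.mp h2

end Pool.Agent.H75.SG
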