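import Pool.Agent.H75.SG.Glue

/-!
# Module SigU: sigma unions (idea of helper84)

A weak* compact bounded set `F` contained in a countable union of weak* closed small sets is small.  `O` = union of the
weak* open `V` with `F ∩ V` small; compact subsets of `F ∩ O` are small.  If `Z = F \ O` is not empty, by Baire there are
`n` and a weak* open `V` with `∅ ≠ V ∩ Z ⊆ T n`; take `b ∈ V ∩ Z`, a closed neighbourhood `V' ⊆ V` of `b`, and
`G = V' ∩ Z`, a small weak* compact set; `F ∩ V'` is the union of `G` and of shells around `G`, which are small, so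
`F ∩ V'` is small by `glue`, and `b ∈ O`, a contradiction.
-/

namespace Pool.Agent.H75.SG

open Set Filter Topology TopologicalSpace

variable {X : Type} [NormedAddCommGroup X] [NormedSpace ℝ X]

private def sgU (x : ℕ → X) (G : Set (WeakDual ℝ X)) (k : ℕ) : Set (WeakDual ℝ X) :=
  {f | ∃ g ∈ G, ∀ j < k, |f (x j) - g (x j)| < 1 / ((k : ℝ) + 1)}

private lemma sgU_open (x : ℕ → X) (G : Set (WeakDual ℝ X)) (k : ℕ) : IsOpen (sgU x G k) := by
  have h1 : sgU x G k = ⋃ g ∈ G, ⋂ j ∈ Finset.range k,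
      {f : WeakDual ℝ X | |f (x j) - g (x j)| < 1 / ((k : ℝ) + 1)} := by
    ext f
    simp only [sgU, Set.mem_ofPred_eq, Set.mem_iUnion, Set.mem_iInter, Finset.mem_range,
      exists_prop]
  rw [h1]
  refine isOpen_biUnion fun g _ => isOpen_biInter_finset fun j _ => ?_
  exact isOpen_lt ((WeakDual.eval_continuous (x j)).sub continuous_const).abs continuous_const

private lemma sgU_sub (x : ℕ → X) (G : Set (WeakDual ℝ X)) (k : ℕ) : G ⊆ sgU x G k := by
  intro g hg
  refine ⟨g, hg, fun j _ => ?_⟩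
  rw [sub_self, abs_zero]
  positivity

private lemma sg_lim {x : ℕ → X} (hx : DenseRange x) {G : Set (WeakDual ℝ X)} (hG : IsCompact G)
    (φ : ℕ → ℕ) (hφ : ∀ i, i ≤ φ i) (t : ℕ → WeakDual ℝ X) (ht : ∀ i, t i ∈ sgU x G (φ i))
    (u : WeakDual ℝ X) (hu : ∀ y, Tendsto (fun i => t i y) (hyperfilter ℕ) (𝓝 (u y))) :
    u ∈ G := by
  choose g hgG hg using ht
  obtain ⟨v, hvG, hv⟩ := hG.ultrafilter_le_nhds ((hyperfilter ℕ).map g) (by
    rw [le_principal_iff]
    exact Filter.mem_map.mpr (Filter.univ_mem' hgG))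
  have hv' : Tendsto g (hyperfilter ℕ) (𝓝 v) := hv
  have h1 : ∀ j, u (x j) = v (x j) := by
    intro j
    have h2 : Tendsto (fun i => g i (x j)) (hyperfilter ℕ) (𝓝 (v (x j))) :=
      ((WeakDual.eval_continuous (x j)).tendsto v).comp hv'
    have h3 : Tendsto (fun i => t i (x j) - g i (x j)) (hyperfilter ℕ) (𝓝 0) := by
      refine Tendsto.mono_left ?_ Nat.hyperfilter_le_atTop
      rw [Metric.tendsto_atTop]
      intro ε hε
      obtain ⟨n, hn⟩ := exists_nat_one_div_lt hε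
      refine ⟨max (j + 1) n, fun i hi => ?_⟩
      have h4 : j < φ i := lt_of_lt_of_le (Nat.lt_succ_self j)
        (((le_max_left _ _).trans hi).trans (hφ i))
      rw [Real.dist_eq, sub_zero]
      refine lt_trans (hg i j h4) (lt_of_le_of_lt ?_ hn)
      have h5 : (n : ℝ) ≤ φ i := by
        exact_mod_cast ((le_max_right _ _).trans hi).trans (hφ i)
      gcongr
    have h4 := h3.add h2
    simp only [sub_add_cancel, zero_add] at h4
    exact tendsto_nhds_unique (hu (x j)) h4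
  have h2 : u = v := by
    have h3 : Continuous fun y => u y := (WeakDual.toStrongDual u).continuous
    have h4 : Continuous fun y => v y := (WeakDual.toStrongDual v).continuous
    have h5 : (fun y => u y) = fun y => v y :=
      hx.equalizer h3 h4 (funext h1)
    exact DFunLike.coe_injective h5
  rw [h2]
  exact hvG

theorem sigU [SeparableSpace X] {F : Set (WeakDual ℝ X)} (hF : IsClosed F) {r : ℝ}
    (hr : ∀ f ∈ F, ‖WeakDual.toStrongDual f‖ ≤ r) (T : ℕ → Set (X →L[ℝ] ℝ))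
    (hTc : ∀ n, IsClosed {f : WeakDual ℝ X | WeakDual.toStrongDual f ∈ T n})
    (hT : ∀ n, Small (T n)) (hFT : ∀ f ∈ F, ∃ n, WeakDual.toStrongDual f ∈ T n) :
    Small {t : X →L[ℝ] ℝ | StrongDual.toWeakDual t ∈ F} := by
  classical
  obtain ⟨x, hx⟩ := exists_dense_seq X
  have hFc : IsCompact F := by
    refine IsCompact.of_isClosed_subset (WeakDual.isCompact_closedBall (0 : X →L[ℝ] ℝ) r) hF ?_
    intro f hf
    rw [Set.mem_preimage, mem_closedBall_zero_iff]
    exact hr _ hf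
  let P : Set (WeakDual ℝ X) → Prop := fun S =>
    Small {t : X →L[ℝ] ℝ | StrongDual.toWeakDual t ∈ F ∩ S}
  let 𝓥 : Set (Set (WeakDual ℝ X)) := {V | IsOpen V ∧ P V}
  let O : Set (WeakDual ℝ X) := ⋃₀ 𝓥
  have hO : IsOpen O := isOpen_sUnion fun V hV => hV.1
  have hP0 : P ∅ := by
    refine Small.empty.sub ?_
    rintro t ⟨_, ht⟩
    exact ht
  have hPm : ∀ ⦃s t : Set (WeakDual ℝ X)⦄, s ⊆ t → P t → P s := fun s t hst ht =>
    Small.sub ht fun f hf => ⟨hf.1, hst hf.2⟩
  have hPu : ∀ ⦃s t : Set (WeakDual ℝ X)⦄, P s → P t → P (s ∪ t) := fun s t hs ht => by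
    refine (Small.union hs ht).sub ?_
    rintro f ⟨hf1, hf2 | hf2⟩
    · exact Or.inl ⟨hf1, hf2⟩
    · exact Or.inr ⟨hf1, hf2⟩
  have hcomp : ∀ C : Set (WeakDual ℝ X), IsCompact C → C ⊆ O → P C := by
    intro C hC hCO
    refine hC.induction_on hP0 hPm hPu ?_
    intro f hf
    obtain ⟨V, hV, hfV⟩ := hCO hf
    exact ⟨V, mem_nhdsWithin_of_mem_nhds (hV.1.mem_nhds hfV), hV.2⟩
  by_cases hFO : F ⊆ O
  · refine Small.sub (hcomp F hFc hFO) ?_
    intro t ht
    exact ⟨ht, ht⟩
  exfalso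
  obtain ⟨b₀, hb₀F, hb₀O⟩ := Set.not_subset.mp hFO
  let Z : Set (WeakDual ℝ X) := F \ O
  have hZ : IsClosed Z := hF.sdiff hO
  have hZc : IsCompact Z := hFc.of_isClosed_subset hZ Set.sdiff_subset
  have : CompactSpace Z := isCompact_iff_compactSpace.mp hZc
  have : Nonempty Z := ⟨⟨b₀, hb₀F, hb₀O⟩⟩
  obtain ⟨n, ⟨b, hb⟩⟩ := nonempty_interior_of_iUnion_of_closed
    (f := fun n => {z : Z | WeakDual.toStrongDual (z : WeakDual ℝ X) ∈ T n})
    (fun n => (hTc n).preimage continuous_subtype_val) (by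
      rw [Set.eq_univ_iff_forall]
      intro z
      obtain ⟨n, hn⟩ := hFT z.1 z.2.1
      exact Set.mem_iUnion.mpr ⟨n, hn⟩)
  obtain ⟨V, hVo, hVZ⟩ := mem_nhds_induced Subtype.val b _ |>.mp
    (mem_interior_iff_mem_nhds.mp hb)
  obtain ⟨V', hV', hV'c, hV'V⟩ := exists_mem_nhds_isClosed_subset hVo
  let G : Set (WeakDual ℝ X) := V' ∩ Z
  have hGc : IsCompact G := hZc.of_isClosed_subset (hV'c.inter hZ) Set.inter_subset_right
  have hbG : (b : WeakDual ℝ X) ∈ G := ⟨mem_of_mem_nhds hV', b.2⟩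
  have hGT : Small {t : X →L[ℝ] ℝ | StrongDual.toWeakDual t ∈ G} := by
    refine (hT n).sub ?_
    intro t ht
    exact hVZ (show (⟨StrongDual.toWeakDual t, ht.2⟩ : Z) ∈ Subtype.val ⁻¹' V from hV'V ht.1)
  let W : ℕ → Set (X →L[ℝ] ℝ) := fun k =>
    {t | StrongDual.toWeakDual t ∈ (F ∩ V') ∩ (sgU x G k \ sgU x G (k + 1))}
  have hW : ∀ k, Small (W k) := by
    intro k
    have h1 : P ((F ∩ V') \ sgU x G (k + 1)) := by
      refine hcomp _ (hFc.of_isClosed_subset ((hF.inter hV'c).sdiff (sgU_open x G (k + 1)))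
        fun f hf => hf.1.1) ?_
      rintro f ⟨⟨hf1, hf2⟩, hf3⟩
      by_contra hfO
      exact hf3 (sgU_sub x G (k + 1) ⟨hf2, hf1, hfO⟩)
    refine Small.sub h1 ?_
    rintro t ⟨ht1, ht2⟩
    exact ⟨ht1.1, ht1, ht2.2⟩
  have hglue := glue hGT W hW (M := r) (fun t ht => hr _ ht.2.1) (fun k t ht => hr _ ht.1.1) (by
    intro φ t u hφ ht _ hut
    exact sg_lim hx hGc φ hφ (fun i => StrongDual.toWeakDual (t i)) (fun i => (ht i).2.1)
      (StrongDual.toWeakDual u) hut)
  have hfin : P V' := by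
    refine (hGT.union hglue).sub ?_
    rintro t ⟨htF, htV⟩
    by_cases h : ∀ k, StrongDual.toWeakDual t ∈ sgU x G k
    · refine Or.inl ?_
      exact sg_lim hx hGc id (fun i => le_rfl) (fun _ => StrongDual.toWeakDual t) h
        (StrongDual.toWeakDual t) fun y => tendsto_const_nhds
    · push Not at h
      refine Or.inr (Set.mem_iUnion.mpr ?_)
      have h0 : StrongDual.toWeakDual t ∈ sgU x G 0 :=
        ⟨b, hbG, fun j hj => absurd hj (Nat.not_lt_zero j)⟩
      obtain ⟨m, hm⟩ : ∃ m, Nat.find h = m + 1 := by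
        refine Nat.exists_eq_succ_of_ne_zero fun hz => ?_
        have h2 := Nat.find_spec h
        rw [hz] at h2
        exact h2 h0
      refine ⟨m, ⟨htF, htV⟩, ?_, ?_⟩
      · by_contra hcon
        have h2 := Nat.find_min' h hcon
        omega
      · have h2 := Nat.find_spec h
        rw [hm] at h2
        exact h2
  have hbO : (b : WeakDual ℝ X) ∈ O := by
    refine ⟨interior V', ⟨isOpen_interior, hPm interior_subset hfin⟩, ?_⟩
    exact mem_interior_iff_mem_nhds.mpr hV'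
  exact b.2.2 hbO

end Pool.Agent.H75.SG
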