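import Pool.Agent.H75.SG.Clo
import Pool.Agent.H75.SG.SigU
import Pool.Agent.H84.TE.MetK

/-!
# Module SigC: countable unions

`smallBall_of_sigma`: if some weak* compact, bounded, norming set of functionals is contained in a countable union of
small sets then the dual ball is small.  No separability is assumed: `F` is norm separable since small sets are, so by
`hull_of_closed'` the dual is separable, hence `X` is; replace the small sets by their weak* closures (`Small.wcl`) and
apply `sigU`.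
-/

namespace Pool.Agent.H75.SG

open Set Filter Topology TopologicalSpace

variable {X : Type} [NormedAddCommGroup X] [NormedSpace ℝ X]

theorem smallBall_of_sigma {F : Set (WeakDual ℝ X)} (hF : IsCompact F) {r : ℝ}
    (hr : ∀ f ∈ F, ‖WeakDual.toStrongDual f‖ ≤ r) {c : ℝ} (hc : 0 < c)
    (hlow : ∀ x : X, ∃ f ∈ F, c * ‖x‖ ≤ |f x|) (T : ℕ → Set (X →L[ℝ] ℝ))
    (hT : ∀ n, Small (T n)) (hFT : ∀ f ∈ F, ∃ n, WeakDual.toStrongDual f ∈ T n) :
    SmallBall X := by
  let G : Set (X →L[ℝ] ℝ) := {t | StrongDual.toWeakDual t ∈ F}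
  have hG : IsClosed {f : WeakDual ℝ X | WeakDual.toStrongDual f ∈ G} := hF.isClosed
  have hGr : ∀ t ∈ G, ‖t‖ ≤ r := fun t ht => hr _ ht
  have hGs : IsSeparable G := by
    refine (isSeparable_iUnion.mpr fun n => (hT n).isSeparable).mono ?_
    intro t ht
    obtain ⟨n, hn⟩ := hFT _ ht
    exact Set.mem_iUnion.mpr ⟨n, hn⟩
  have hall : ∀ t : X →L[ℝ] ℝ, t ∈ Hull (‖t‖ / c) G := by
    intro t
    refine hull_of_closed' hG hGr hGs (by positivity) t ?_
    intro x b hb h
    obtain ⟨f, hf, hfx⟩ := hlow x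
    have h1 : |f x| ≤ b := h (WeakDual.toStrongDual f) hf
    have h2 : ‖x‖ ≤ b / c := by
      rw [le_div_iff₀ hc, mul_comm]
      exact hfx.trans h1
    calc |t x| = ‖t x‖ := rfl
      _ ≤ ‖t‖ * ‖x‖ := t.le_opNorm x
      _ ≤ ‖t‖ * (b / c) := by gcongr
      _ = ‖t‖ / c * b := by ring
  have hsepD : SeparableSpace (StrongDual ℝ X) := by
    have h1 : IsSeparable (Set.univ : Set (X →L[ℝ] ℝ)) :=
      (hGs.span.closure).mono fun t _ => hull_subset_closure_span _ _ (hall t)
    exact isSeparable_univ_iff.mp h1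
  have hsepX : SeparableSpace X := Pool.Agent.H84.TE.sep_of_dual
  have hsm : Small G := sigU hF.isClosed hr (fun n => WCl (T n))
    (fun n => isClosed_wcl (T n)) (fun n => (hT n).wcl) (fun f hf => by
      obtain ⟨n, hn⟩ := hFT f hf
      exact ⟨n, subset_wcl _ hn⟩)
  refine (hsm.hull (1 / c)).sub ?_
  intro t ht Λ d hd h
  have ht : ‖t‖ ≤ 1 := ht
  refine (hall t Λ d hd h).trans ?_
  have : ‖t‖ / c ≤ 1 / c := by gcongr
  gcongr

end Pool.Agent.H75.SG
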