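import Pool.Agent.H75.SG.CtS
import Pool.Agent.H75.SG.Rep
import Pool.Agent.H75.SG.SigC

/-!
# Module GenC: the class of normed spaces generated from `C(L)`, `L` countable compact

`Gen` is the least class of real normed spaces which contains `C(L)`, `L` countable compact Hausdorff, and is closed under
isomorphic embeddings, extensions and countable amalgams: `X` is in `Gen` if there are closed subspaces `Y n`, `n ∈ ℕ`,
with all `X ⧸ Y n` in `Gen` and a weak* compact norming set in the dual ball each element of which vanishes on some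
`Y n`.  All its members have small dual balls (`smallBall_of_gen`).  Upper semicontinuous continuous sums over countable
compact spaces are a special case (`gen_csum`), in particular `c_0`-sums.
-/

namespace Pool.Agent.H75.SG

open Set Filter Topology TopologicalSpace

/-- The class of normed spaces generated from the spaces `C(L)`, `L` countable compact Hausdorff. -/
inductive Gen : ∀ (X : Type) [NormedAddCommGroup X] [NormedSpace ℝ X], Prop
  | base (L : Type) [TopologicalSpace L] [CompactSpace L] [T2Space L] [Countable L] : Gen C(L, ℝ)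
  | sub {X Z : Type} [NormedAddCommGroup X] [NormedSpace ℝ X] [NormedAddCommGroup Z]
      [NormedSpace ℝ Z] (A : X →L[ℝ] Z) (c : ℝ) : 0 < c → (∀ x, c * ‖x‖ ≤ ‖A x‖) → Gen Z → Gen X
  | ext {X : Type} [NormedAddCommGroup X] [NormedSpace ℝ X] (Y : Submodule ℝ X)
      [IsClosed (Y : Set X)] : Gen Y → Gen (X ⧸ Y) → Gen X
  | amalg {X : Type} [NormedAddCommGroup X] [NormedSpace ℝ X] (Y : ℕ → Submodule ℝ X)
      [∀ n, IsClosed (Y n : Set X)] (F : Set (WeakDual ℝ X)) (c : ℝ) :
      (∀ n, Gen (X ⧸ Y n)) → IsCompact F → (∀ f ∈ F, ‖WeakDual.toStrongDual f‖ ≤ 1) →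
      (∀ f ∈ F, ∃ n, ∀ y ∈ Y n, f y = 0) → 0 < c → (∀ x : X, ∃ f ∈ F, c * ‖x‖ ≤ |f x|) → Gen X

theorem embC_self (L : Type) [TopologicalSpace L] [CompactSpace L] [T2Space L] [Countable L] :
    EmbC C(L, ℝ) :=
  ⟨L, inferInstance, inferInstance, inferInstance, inferInstance,
    ContinuousLinearMap.id ℝ C(L, ℝ), 1, one_pos, fun x => by
      rw [one_mul]
      exact le_rfl⟩

theorem sep_three {X : Type} [NormedAddCommGroup X] [NormedSpace ℝ X] (Y : Submodule ℝ X)
    [IsClosed (Y : Set X)] (h1 : SeparableSpace Y) (h2 : SeparableSpace (X ⧸ Y)) :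
    SeparableSpace X := by
  obtain ⟨D, hDc, hD⟩ := exists_countable_dense (X ⧸ Y)
  obtain ⟨E, hEc, hE⟩ := exists_countable_dense Y
  choose s hs using fun q : X ⧸ Y => Submodule.Quotient.mk_surjective Y q
  refine ⟨Set.image2 (fun (q : X ⧸ Y) (e : Y) => s q + (e : X)) D E, hDc.image2 hEc _, ?_⟩
  intro x
  rw [Metric.mem_closure_iff]
  intro ε hε
  obtain ⟨q, hqD, hq⟩ := hD.exists_dist_lt (Submodule.Quotient.mk x : X ⧸ Y)
    (show (0 : ℝ) < ε / 2 by positivity)
  rw [dist_eq_norm] at hq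
  have h3 : (Submodule.Quotient.mk (x - s q) : X ⧸ Y) = Submodule.Quotient.mk x - q := by
    rw [Submodule.Quotient.mk_sub, hs]
  obtain ⟨z, hz, hzn⟩ := Submodule.Quotient.norm_mk_lt
    (Submodule.Quotient.mk (x - s q) : X ⧸ Y)
    (show 0 < ε / 2 - ‖(Submodule.Quotient.mk (x - s q) : X ⧸ Y)‖ by
      rw [h3]
      linarith)
  have h4 : x - s q - z ∈ Y := (Submodule.Quotient.eq Y).mp hz.symm
  obtain ⟨e, heE, he⟩ := hE.exists_dist_lt (⟨x - s q - z, h4⟩ : Y)
    (show (0 : ℝ) < ε / 2 by positivity)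
  rw [dist_eq_norm] at he
  refine ⟨s q + (e : X), Set.mem_image2_of_mem hqD heE, ?_⟩
  rw [dist_eq_norm]
  have h5 : ‖(x - s q - z) - (e : X)‖ < ε / 2 := he
  have h6 : ‖z‖ < ε / 2 := by linarith
  calc ‖x - (s q + (e : X))‖ = ‖((x - s q - z) - (e : X)) + z‖ := by
        congr 1
        abel
    _ ≤ ‖(x - s q - z) - (e : X)‖ + ‖z‖ := norm_add_le _ _
    _ < ε / 2 + ε / 2 := add_lt_add h5 h6
    _ = ε := add_halves ε

theorem separable_of_smallBall' {X : Type} [NormedAddCommGroup X] [NormedSpace ℝ X]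
    (h : SmallBall X) : SeparableSpace X := by
  have : SeparableSpace (StrongDual ℝ X) := separable_of_smallBall h
  exact Pool.Agent.H84.TE.sep_of_dual

theorem smallBall_of_gen {X : Type} [NormedAddCommGroup X] [NormedSpace ℝ X] (h : Gen X) :
    SmallBall X := by
  induction h with
  | base L => exact smallBall_of_emb (embC_self L)
  | sub A c hc hA _ ih => exact smallBall_of_embed A hc hA ih
  | ext Y _ _ ih1 ih2 =>
    have := sep_three Y (separable_of_smallBall' ih1) (separable_of_smallBall' ih2)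
    exact three_space Y ih1 ih2
  | amalg Y F c _ hF hF1 hFY hc hlow ih =>
    refine smallBall_of_sigma hF hF1 hc hlow (fun n => Pp (Y n))
      (fun n => small_perp_of_quotient (ih n)) ?_
    intro f hf
    obtain ⟨n, hn⟩ := hFY f hf
    exact ⟨n, hF1 f hf, hn⟩

/-- continuous sums over countable compact spaces -/
theorem gen_csum {X : Type} [NormedAddCommGroup X] [NormedSpace ℝ X] {L : Type}
    [TopologicalSpace L] [CompactSpace L] [Countable L] [Nonempty L] (Y : L → Submodule ℝ X)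
    [∀ l, IsClosed (Y l : Set X)] (hG : ∀ l, Gen (X ⧸ Y l))
    (husc : ∀ l, ∀ y ∈ Y l, ∀ ε : ℝ, 0 < ε → ∀ᶠ l' in 𝓝 l,
      ‖(Submodule.Quotient.mk y : X ⧸ Y l')‖ ≤ ε) {c : ℝ} (hc : 0 < c)
    (hlow : ∀ x : X, ∃ l, c * ‖x‖ ≤ ‖(Submodule.Quotient.mk x : X ⧸ Y l)‖) : Gen X := by
  obtain ⟨e, he⟩ := exists_surjective_nat L
  have h1 := isClosed_fibres Y husc
  refine Gen.amalg (fun n => Y (e n)) {f : WeakDual ℝ X | ∃ l, WeakDual.toStrongDual f ∈ Pp (Y l)}
    c (fun n => hG (e n)) ?_ ?_ ?_ hc ?_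
  · refine IsCompact.of_isClosed_subset
      (WeakDual.isCompact_closedBall (0 : X →L[ℝ] ℝ) 1) h1 ?_
    rintro f ⟨l, hf⟩
    rw [Set.mem_preimage, mem_closedBall_zero_iff]
    exact hf.1
  · rintro f ⟨l, hf⟩
    exact hf.1
  · rintro f ⟨l, hf⟩
    obtain ⟨n, rfl⟩ := he l
    exact ⟨n, hf.2⟩
  · intro x
    obtain ⟨l, hl⟩ := hlow x
    obtain ⟨f, hf, hfx⟩ := exists_perp (Y := Y l) x
    refine ⟨StrongDual.toWeakDual f, ⟨l, hf⟩, ?_⟩
    have h2 : (StrongDual.toWeakDual f) x = ‖(Submodule.Quotient.mk x : X ⧸ Y l)‖ := hfx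
    rw [h2, abs_norm]
    exact hl

end Pool.Agent.H75.SG
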