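import Pool.Agent.H75.SG.TsL

/-!
# Module Glue: gluing small sets along a small set

If `A` is small, the `W n` are small and uniformly bounded and every weak* limit (along the hyperfilter) of functionals
`t i ∈ W (φ i)`, `φ i ≥ i`, lies in `A`, then `⋃ W n` is small (`X` separable).
-/

namespace Pool.Agent.H75.SG

open Set Filter Topology TopologicalSpace

variable {X : Type} [NormedAddCommGroup X] [NormedSpace ℝ X]

theorem glue [SeparableSpace X] {A : Set (X →L[ℝ] ℝ)} (hA : Small A) (W : ℕ → Set (X →L[ℝ] ℝ))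
    (hW : ∀ n, Small (W n)) {M : ℝ} (hAM : ∀ t ∈ A, ‖t‖ ≤ M) (hM : ∀ n, ∀ t ∈ W n, ‖t‖ ≤ M)
    (hlim : ∀ (φ : ℕ → ℕ) (t : ℕ → (X →L[ℝ] ℝ)) (u : X →L[ℝ] ℝ), (∀ i, i ≤ φ i) →
      (∀ i, t i ∈ W (φ i)) → ‖u‖ ≤ M →
      (∀ x, Tendsto (fun i => t i x) (hyperfilter ℕ) (𝓝 (u x))) → u ∈ A) :
    Small (⋃ n, W n) := by
  classical
  rcases lt_or_ge M 0 with hM0 | hM0
  · refine Small.empty.sub ?_
    intro t ht
    obtain ⟨n, hn⟩ := Set.mem_iUnion.mp ht
    exact absurd ((norm_nonneg t).trans (hM n t hn)) (by linarith)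
  obtain ⟨x, hx⟩ := exists_dense_seq X
  let R : ℕ → ℕ → Prop := fun k n => ∀ t ∈ W n, ∃ t' ∈ A, ∀ j < k,
    |t (x j) - t' (x j)| ≤ 1 / ((k : ℝ) + 1)
  have hR : ∀ k, ∃ n₀, ∀ n, n₀ ≤ n → R k n := by
    intro k
    by_contra hcon
    push Not at hcon
    choose φ hφ hφR using hcon
    have h1 : ∀ i, ∃ t ∈ W (φ i), ∀ t' ∈ A, ∃ j < k,
        1 / ((k : ℝ) + 1) < |t (x j) - t' (x j)| := by
      intro i
      have := hφR i
      simp only [R] at this
      push Not at this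
      exact this
    choose t ht htA using h1
    obtain ⟨u, hu, hut⟩ := exists_ulim t (fun i => hM (φ i) _ (ht i))
    have huA := hlim φ t u hφ ht hu hut
    have h3 : ∀ᶠ i in (hyperfilter ℕ : Filter ℕ), ∀ j < k,
        |t i (x j) - u (x j)| ≤ 1 / ((k : ℝ) + 1) := by
      have h4 : ∀ j ∈ Finset.range k, ∀ᶠ i in (hyperfilter ℕ : Filter ℕ),
          |t i (x j) - u (x j)| ≤ 1 / ((k : ℝ) + 1) := by
        intro j _
        have h5 := (Metric.tendsto_nhds.mp (hut (x j))) (1 / ((k : ℝ) + 1)) (by positivity)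
        filter_upwards [h5] with i hi
        rw [Real.dist_eq] at hi
        exact hi.le
      have h6 := (Finset.eventually_all (Finset.range k)).mpr h4
      filter_upwards [h6] with i hi j hj
      exact hi j (Finset.mem_range.mpr hj)
    obtain ⟨i, hi⟩ := h3.exists
    obtain ⟨j, hj, hj2⟩ := htA i u huA
    exact absurd (hi j hj) (not_le.mpr hj2)
  obtain ⟨N, hN⟩ := hR 0
  let κ : ℕ → ℕ := fun n => Nat.findGreatest (fun k => R k n) n
  have hκ : ∀ n, N ≤ n → R (κ n) n := fun n hn =>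
    Nat.findGreatest_spec (P := fun k => R k n) (Nat.zero_le n) (hN n hn)
  have hκlim : ∀ k, ∃ n₀, ∀ n, n₀ ≤ n → k ≤ κ n := by
    intro k
    obtain ⟨n₀, hn₀⟩ := hR k
    exact ⟨max n₀ k, fun n hn => Nat.le_findGreatest (le_trans (le_max_right _ _) hn)
      (hn₀ n (le_trans (le_max_left _ _) hn))⟩
  let G : ℕ → Set (X →L[ℝ] ℝ) := fun n => {u | N ≤ n ∧ ∃ t ∈ W n, ∃ t' ∈ A,
    (∀ j < κ n, |t (x j) - t' (x j)| ≤ 1 / ((κ n : ℝ) + 1)) ∧ u = t - t'}
  have hG : Small (⋃ n, G n) := by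
    refine Small.seq (f := 0) (2 * M) (fun n => ?_) ?_ ?_
    · refine ((hW n).lin hA 1 (-1)).sub ?_
      rintro u ⟨_, t, ht, t', ht', _, rfl⟩
      exact ⟨t, ht, t', ht', by module⟩
    · rintro n u ⟨_, t, ht, t', ht', _, rfl⟩
      calc ‖t - t'‖ ≤ ‖t‖ + ‖t'‖ := norm_sub_le _ _
        _ ≤ M + M := add_le_add (hM n t ht) (hAM t' ht')
        _ = 2 * M := by ring
    · intro z ε hε
      obtain ⟨j, hj⟩ : ∃ j, ‖z - x j‖ ≤ ε / (2 * (2 * M + 1)) := by
        obtain ⟨j, hw⟩ := hx.exists_mem_open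
          (Metric.isOpen_ball (x := z) (ε := ε / (2 * (2 * M + 1)))) ⟨z, Metric.mem_ball_self (by positivity)⟩
        refine ⟨j, ?_⟩
        rw [Metric.mem_ball, dist_comm, dist_eq_norm] at hw
        exact hw.le
      obtain ⟨k, hk⟩ := exists_nat_one_div_lt (half_pos hε)
      obtain ⟨n₀, hn₀⟩ := hκlim (max (j + 1) k)
      refine ⟨n₀, ?_⟩
      rintro n hn u ⟨_, t, ht, t', ht', hu, rfl⟩
      have h1 := hn₀ n hn
      have h2 := hu j (lt_of_lt_of_le (Nat.lt_succ_self j) ((le_max_left _ _).trans h1))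
      have h3 : 1 / ((κ n : ℝ) + 1) ≤ ε / 2 := by
        refine le_trans ?_ hk.le
        have h4 : (k : ℝ) ≤ κ n := by exact_mod_cast (le_max_right _ _).trans h1
        gcongr
      have h5 : ‖t - t'‖ ≤ 2 * M := by
        calc ‖t - t'‖ ≤ ‖t‖ + ‖t'‖ := norm_sub_le _ _
          _ ≤ M + M := add_le_add (hM n t ht) (hAM t' ht')
          _ = 2 * M := by ring
      have h6 : |(t - t') (z - x j)| ≤ ε / 2 := by
        calc |(t - t') (z - x j)| = ‖(t - t') (z - x j)‖ := rfl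
          _ ≤ ‖t - t'‖ * ‖z - x j‖ := (t - t').le_opNorm _
          _ ≤ 2 * M * (ε / (2 * (2 * M + 1))) := by gcongr
          _ = ε / 2 * (2 * M / (2 * M + 1)) := by
            field_simp
          _ ≤ ε / 2 * 1 := by
            have : 2 * M / (2 * M + 1) ≤ 1 := by
              rw [div_le_one (by positivity)]
              linarith
            gcongr
          _ = ε / 2 := mul_one _
      have e : (t - t') z - (0 : X →L[ℝ] ℝ) z = (t (x j) - t' (x j)) + (t - t') (z - x j) := by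
        rw [_root_.zero_apply, map_sub]
        change (t z - t' z) - 0 = (t (x j) - t' (x j)) + ((t z - t' z) - (t (x j) - t' (x j)))
        ring
      rw [e]
      calc _ ≤ |t (x j) - t' (x j)| + |(t - t') (z - x j)| := abs_add_le _ _
        _ ≤ ε / 2 + ε / 2 := add_le_add (h2.trans h3) h6
        _ = ε := add_halves ε
  refine ((Small.iUnion_lt N fun n _ => hW n).union (hA.lin hG 1 1)).sub ?_
  intro t ht
  obtain ⟨n, hn⟩ := Set.mem_iUnion.mp ht
  rcases lt_or_ge n N with h1 | h1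
  · exact Or.inl ⟨n, h1, hn⟩
  · obtain ⟨t', ht', ht2⟩ := hκ n h1 t hn
    refine Or.inr ⟨t', ht', t - t', Set.mem_iUnion.mpr ⟨n, h1, t, hn, t', ht', ht2, rfl⟩, ?_⟩
    rw [one_smul, one_smul, add_sub_cancel]

end Pool.Agent.H75.SG
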