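import Pool.Agent.H75.SG.NrH

/-!
# Module NrG: weak* closed hulls of separable families

General form of `norm_hull`: if `|t x| ≤ D ‖A x‖` for all `x` and the coordinate functionals `x ↦ (A x) k` lie in the norm
separable set `T` then `t ∈ Hull D T`.  Consequence `hull_of_closed'`: for `T` weak* closed, bounded and norm separable,
`|t x| ≤ D sup_T |g x|` implies `t ∈ Hull D T`.
-/

namespace Pool.Agent.H75.SG

open Set Filter Topology TopologicalSpace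

variable {X : Type} [NormedAddCommGroup X] [NormedSpace ℝ X]

theorem exists_factor' {Z : Type} [NormedAddCommGroup Z] [NormedSpace ℝ Z] (A : X →L[ℝ] Z)
    {D : ℝ} (hD : 0 ≤ D) (t : X →L[ℝ] ℝ) (ht : ∀ x, |t x| ≤ D * ‖A x‖) :
    ∃ m : Z →L[ℝ] ℝ, ‖m‖ ≤ D ∧ adj A m = t := by
  have hker : LinearMap.ker A.toLinearMap ≤ LinearMap.ker t.toLinearMap := by
    intro x hx
    have h1 : A x = 0 := hx
    have h2 := ht x
    rw [h1, norm_zero, mul_zero] at h2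
    exact abs_eq_zero.mp (le_antisymm h2 (abs_nonneg _))
  let e := A.toLinearMap.quotKerEquivRange
  let f₀ : LinearMap.range A.toLinearMap →ₗ[ℝ] ℝ :=
    ((LinearMap.ker A.toLinearMap).liftQ t.toLinearMap hker).comp e.symm.toLinearMap
  have hf₀ : ∀ x, f₀ ⟨A x, ⟨x, rfl⟩⟩ = t x := by
    intro x
    have h1 : e.symm ⟨A x, ⟨x, rfl⟩⟩ = Submodule.Quotient.mk x := by
      rw [LinearEquiv.symm_apply_eq]
      rfl
    change ((LinearMap.ker A.toLinearMap).liftQ t.toLinearMap hker) (e.symm ⟨A x, ⟨x, rfl⟩⟩) = t x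
    rw [h1]
    rfl
  let f : LinearMap.range A.toLinearMap →L[ℝ] ℝ := f₀.mkContinuous D (by
    rintro ⟨_, x, rfl⟩
    have h1 := hf₀ x
    have h2 : f₀ ⟨A.toLinearMap x, ⟨x, rfl⟩⟩ = t x := h1
    rw [h2]
    exact ht x)
  obtain ⟨g, hg1, hg2⟩ := exists_extension_norm_eq (LinearMap.range A.toLinearMap) f
  refine ⟨g, ?_, ?_⟩
  · rw [hg2]
    exact LinearMap.mkContinuous_norm_le _ hD _
  · ext x
    have h1 := hg1 ⟨A x, ⟨x, rfl⟩⟩
    calc adj A g x = g (A x) := rfl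
      _ = f ⟨A x, ⟨x, rfl⟩⟩ := h1
      _ = t x := hf₀ x

theorem norm_hull' {K : Type} [TopologicalSpace K] [CompactSpace K] [T2Space K]
    (A : X →L[ℝ] C(K, ℝ)) {D : ℝ} (hD0 : 0 ≤ D) {T : Set (X →L[ℝ] ℝ)} (hT : ∀ k, ∃ g ∈ T, ∀ x, A x k = g x) (hsep : IsSeparable T)
    (t : X →L[ℝ] ℝ) (ht : ∀ x, |t x| ≤ D * ‖A x‖) : t ∈ Hull D T := by
  intro Λ d hd h
  rcases eq_or_ne t 0 with h0 | h0
  · rw [h0, map_zero, abs_zero]
    positivity
  obtain ⟨z, hz⟩ : ∃ z, t z = 1 := by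
    obtain ⟨y, hy⟩ : ∃ y, t y ≠ 0 := by
      by_contra hcon
      push Not at hcon
      exact h0 (by ext y; exact hcon y)
    refine ⟨(t y)⁻¹ • y, ?_⟩
    rw [map_smul, smul_eq_mul, inv_mul_cancel₀ hy]
  obtain ⟨m, hm, hmt⟩ := exists_factor' A hD0 t ht
  obtain ⟨C, hDc, hD⟩ := hsep
  obtain ⟨q, hq⟩ := (hDc.union (countable_singleton t)).exists_eq_range ⟨t, Or.inr rfl⟩
  choose x hx1 hx2 using fun k : ℕ =>
    goldstine Λ (n := k) (fun j => q j) (ε := 1 / ((k : ℝ) + 1)) (by positivity)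
  have hx3 : ∀ j, Tendsto (fun k => q j (x k)) atTop (𝓝 (Λ (q j))) := by
    intro j
    rw [Metric.tendsto_atTop]
    intro ε hε
    obtain ⟨n, hn⟩ := exists_nat_one_div_lt hε
    refine ⟨max (j + 1) n, fun k hk => ?_⟩
    have h1 : j < k := lt_of_lt_of_le (Nat.lt_succ_self j) ((le_max_left _ _).trans hk)
    have h2 := hx2 k ⟨j, h1⟩
    rw [Real.dist_eq]
    refine lt_of_le_of_lt h2 (lt_of_le_of_lt ?_ hn)
    have h3 : (n : ℝ) ≤ k := by exact_mod_cast (le_max_right _ _).trans hk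
    gcongr
  have hx4 : ∀ g ∈ closure (C ∪ {t}), Tendsto (fun k => g (x k)) atTop (𝓝 (Λ g)) := by
    intro g hg
    rw [Metric.tendsto_atTop]
    intro ε hε
    have hL : 0 < 2 * ‖Λ‖ + 1 := by positivity
    obtain ⟨g', hg', hgg⟩ := Metric.mem_closure_iff.mp hg (ε / (2 * (2 * ‖Λ‖ + 1))) (by positivity)
    rw [hq] at hg'
    obtain ⟨j, rfl⟩ := hg'
    obtain ⟨n, hn⟩ := Metric.tendsto_atTop.mp (hx3 j) (ε / 2) (half_pos hε)
    refine ⟨n, fun k hk => ?_⟩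
    have h1 := hn k hk
    rw [Real.dist_eq] at h1 ⊢
    rw [dist_eq_norm] at hgg
    have h2 : |(g - q j) (x k)| ≤ ‖g - q j‖ * ‖Λ‖ := by
      calc |(g - q j) (x k)| = ‖(g - q j) (x k)‖ := rfl
        _ ≤ ‖g - q j‖ * ‖x k‖ := (g - q j).le_opNorm _
        _ ≤ ‖g - q j‖ * ‖Λ‖ := by
          have := hx1 k
          gcongr
    have h3 : |Λ (g - q j)| ≤ ‖g - q j‖ * ‖Λ‖ := by
      calc |Λ (g - q j)| = ‖Λ (g - q j)‖ := rfl
        _ ≤ ‖Λ‖ * ‖g - q j‖ := Λ.le_opNorm _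
        _ = ‖g - q j‖ * ‖Λ‖ := mul_comm _ _
    have e : g (x k) - Λ g = ((q j (x k) - Λ (q j)) + (g - q j) (x k)) - Λ (g - q j) := by
      rw [map_sub, _root_.sub_apply]
      ring
    rw [e]
    have h4 : ‖g - q j‖ * (2 * ‖Λ‖) < ε / 2 := by
      calc ‖g - q j‖ * (2 * ‖Λ‖) ≤ ‖g - q j‖ * (2 * ‖Λ‖ + 1) := by gcongr; linarith
        _ < ε / (2 * (2 * ‖Λ‖ + 1)) * (2 * ‖Λ‖ + 1) := by gcongr
        _ = ε / 2 := by field_simp
    calc _ ≤ _ := abs_sub _ _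
      _ ≤ (|q j (x k) - Λ (q j)| + |(g - q j) (x k)|) + |Λ (g - q j)| := by
        gcongr
        exact abs_add_le _ _
      _ < (ε / 2 + ‖g - q j‖ * ‖Λ‖) + ‖g - q j‖ * ‖Λ‖ := by
        have := h1
        linarith
      _ = ε / 2 + ‖g - q j‖ * (2 * ‖Λ‖) := by ring
      _ < ε / 2 + ε / 2 := by linarith
      _ = ε := add_halves ε
  have hxt : Tendsto (fun k => t (x k)) atTop (𝓝 (Λ t)) := hx4 t (subset_closure (Or.inr rfl))
  let r : ℕ → ℝ := fun k => Λ t - t (x k)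
  have hr : Tendsto r atTop (𝓝 0) := by
    have := (tendsto_const_nhds (x := Λ t)).sub hxt
    rwa [sub_self] at this
  let y : ℕ → X := fun k => x k + r k • z
  have hyt : ∀ k, t (y k) = Λ t := by
    intro k
    simp only [y, r]
    rw [map_add, map_smul, hz, smul_eq_mul, mul_one]
    ring
  have hyT : ∀ g ∈ T, Tendsto (fun k => g (y k)) atTop (𝓝 (Λ g)) := by
    intro g hg
    have h1 := hx4 g (closure_mono subset_union_left (hD hg))
    have h2 := h1.add (hr.mul_const (g z))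
    rw [zero_mul, add_zero] at h2
    refine h2.congr fun k => ?_
    simp only [y]
    rw [map_add, map_smul, smul_eq_mul]
  have hrb : ∀ k, |r k| ≤ 2 * ‖Λ‖ * ‖t‖ := by
    intro k
    have h1 : |Λ t| ≤ ‖Λ‖ * ‖t‖ := Λ.le_opNorm t
    have h2 : |t (x k)| ≤ ‖t‖ * ‖Λ‖ := (t.le_opNorm (x k)).trans (by
      have := hx1 k
      gcongr)
    calc |r k| ≤ |Λ t| + |t (x k)| := abs_sub _ _
      _ ≤ ‖Λ‖ * ‖t‖ + ‖t‖ * ‖Λ‖ := add_le_add h1 h2
      _ = 2 * ‖Λ‖ * ‖t‖ := by ring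
  have hyb : ∀ k, ‖y k‖ ≤ ‖Λ‖ + 2 * ‖Λ‖ * ‖t‖ * ‖z‖ := by
    intro k
    calc ‖y k‖ ≤ ‖x k‖ + ‖r k • z‖ := norm_add_le _ _
      _ = ‖x k‖ + |r k| * ‖z‖ := by rw [norm_smul, Real.norm_eq_abs]
      _ ≤ ‖Λ‖ + 2 * ‖Λ‖ * ‖t‖ * ‖z‖ := by
        have h1 := hx1 k
        have h2 := hrb k
        gcongr
  choose g hgT hg using hT
  have hAb : ∀ k, ‖A (y k)‖ ≤ ‖A‖ * (‖Λ‖ + 2 * ‖Λ‖ * ‖t‖ * ‖z‖) := by
    intro k
    refine (A.le_opNorm _).trans ?_
    have := hyb k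
    gcongr
  have hAl : ∀ s, Tendsto (fun k => A (y k) s) atTop (𝓝 (Λ (g s))) := by
    intro s
    refine (hyT (g s) (hgT s)).congr fun k => ?_
    exact (hg s (y k)).symm
  have hma : ∀ k, m (A (y k)) = Λ t := by
    intro k
    rw [← hyt k, ← hmt]
    rfl
  have h1 : Λ t ≤ ‖m‖ * d := Pool.Agent.H87.CS.le_of_pointwise m (fun k => A (y k)) _ d (Λ t)
    (fun s => Λ (g s)) hAb hAl (fun s => h _ (hgT s)) hd hma
  have h2 : -Λ t ≤ ‖-m‖ * d := Pool.Agent.H87.CS.le_of_pointwise (-m) (fun k => A (y k)) _ d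
    (-Λ t) (fun s => Λ (g s)) hAb hAl (fun s => h _ (hgT s)) hd (fun k => by
      rw [_root_.neg_apply, hma k])
  rw [norm_neg] at h2
  have h3 : |Λ t| ≤ ‖m‖ * d := abs_le.mpr ⟨by linarith, h1⟩
  refine h3.trans ?_
  gcongr

/-- weak* closed, bounded, norm separable sets: the hull is determined by the support function -/
theorem hull_of_closed' {T : Set (X →L[ℝ] ℝ)}
    (hT : IsClosed {f : WeakDual ℝ X | WeakDual.toStrongDual f ∈ T}) {r : ℝ}
    (hT1 : ∀ t ∈ T, ‖t‖ ≤ r) (hsep : IsSeparable T) {D : ℝ} (hD : 0 ≤ D) (t : X →L[ℝ] ℝ)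
    (ht : ∀ (x : X) (b : ℝ), 0 ≤ b → (∀ g ∈ T, |g x| ≤ b) → |t x| ≤ D * b) : t ∈ Hull D T := by
  let K : Set (WeakDual ℝ X) := {f | WeakDual.toStrongDual f ∈ T}
  have hr : ∀ t ∈ T, ‖t‖ ≤ |r| := fun t ht => (hT1 t ht).trans (le_abs_self r)
  have hK : IsCompact K := by
    refine IsCompact.of_isClosed_subset (WeakDual.isCompact_closedBall (0 : X →L[ℝ] ℝ) |r|) hT ?_
    intro f hf
    rw [Set.mem_preimage, mem_closedBall_zero_iff]
    exact hr _ hf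
  have : CompactSpace K := isCompact_iff_compactSpace.mp hK
  let A₀ : X →ₗ[ℝ] C(K, ℝ) :=
    { toFun := fun x => ⟨fun f => (f : WeakDual ℝ X) x,
        (WeakDual.eval_continuous x).comp continuous_subtype_val⟩
      map_add' := fun x y => by
        ext f
        exact map_add (WeakDual.toStrongDual (f : WeakDual ℝ X)) x y
      map_smul' := fun r x => by
        ext f
        exact map_smul (WeakDual.toStrongDual (f : WeakDual ℝ X)) r x }
  let A : X →L[ℝ] C(K, ℝ) := A₀.mkContinuous |r| (by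
    intro x
    rw [ContinuousMap.norm_le _ (by positivity)]
    intro f
    calc ‖(WeakDual.toStrongDual (f : WeakDual ℝ X)) x‖
        ≤ ‖WeakDual.toStrongDual (f : WeakDual ℝ X)‖ * ‖x‖ := ContinuousLinearMap.le_opNorm _ _
      _ ≤ |r| * ‖x‖ := mul_le_mul_of_nonneg_right
          (hr (WeakDual.toStrongDual (f : WeakDual ℝ X)) f.2) (norm_nonneg x))
  refine norm_hull' A hD (T := T) ?_ hsep t ?_
  · intro k
    exact ⟨WeakDual.toStrongDual (k : WeakDual ℝ X), k.2, fun x => rfl⟩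
  · intro x
    refine ht x _ (norm_nonneg _) fun g hg => ?_
    exact (A x).norm_coe_le_norm ⟨StrongDual.toWeakDual g, hg⟩

end Pool.Agent.H75.SG
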