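import Pool.Agent.H75.SG.SigC

/-!
# Module SigD: the property `SigmaSmall`

`SigmaSmall X`: some weak* compact, bounded, norming set of functionals on `X` is contained in a countable union of small
sets.  It is equivalent to `SmallBall X`.
-/

namespace Pool.Agent.H75.SG

open Set Filter Topology TopologicalSpace

/-- Some weak* compact, bounded, norming set of functionals is contained in a countable union of small sets. -/
def SigmaSmall (X : Type) [NormedAddCommGroup X] [NormedSpace ℝ X] : Prop :=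
  ∃ (F : Set (WeakDual ℝ X)) (T : ℕ → Set (X →L[ℝ] ℝ)) (r c : ℝ), IsCompact F ∧
    (∀ f ∈ F, ‖WeakDual.toStrongDual f‖ ≤ r) ∧ 0 < c ∧ (∀ x : X, ∃ f ∈ F, c * ‖x‖ ≤ |f x|) ∧
    (∀ n, Small (T n)) ∧ ∀ f ∈ F, ∃ n, WeakDual.toStrongDual f ∈ T n

variable {X : Type} [NormedAddCommGroup X] [NormedSpace ℝ X]

theorem smallBall_of_sigmaSmall (h : SigmaSmall X) : SmallBall X := by
  obtain ⟨F, T, r, c, h1, h2, h3, h4, h5, h6⟩ := h
  exact smallBall_of_sigma h1 h2 h3 h4 T h5 h6

theorem sigmaSmall_of_smallBall (h : SmallBall X) : SigmaSmall X := by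
  refine ⟨WeakDual.toStrongDual ⁻¹' Metric.closedBall (0 : X →L[ℝ] ℝ) 1,
    fun _ => {t : X →L[ℝ] ℝ | ‖t‖ ≤ 1}, 1, 1, WeakDual.isCompact_closedBall 0 1, ?_, one_pos, ?_,
    fun _ => h, ?_⟩
  · intro f hf
    rw [Set.mem_preimage, mem_closedBall_zero_iff] at hf
    exact hf
  · intro x
    obtain ⟨g, hg, hgx⟩ := exists_dual_vector'' ℝ x
    refine ⟨StrongDual.toWeakDual g, ?_, ?_⟩
    · refine Set.mem_preimage.mpr ?_
      rw [mem_closedBall_zero_iff]
      exact hg
    · have h1 : (StrongDual.toWeakDual g) x = ‖x‖ := hgx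
      rw [h1, abs_norm, one_mul]
  · intro f hf
    rw [Set.mem_preimage, mem_closedBall_zero_iff] at hf
    exact ⟨0, hf⟩

end Pool.Agent.H75.SG
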