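import Pool.Agent.H75.SG.Bas

/-!
# Module TsL: three spaces, the limit step

`exists_ulim`: bounded sequences of functionals have weak* limits along the hyperfilter.  `ts_lim`: if `W n → f` weak*
in the dual of `Y` then the elements `t` of `Lift Y M (W n)` are weak* close to elements `t'` of
`A = {t' : ‖t'‖ ≤ M, t' = f on Y}` (compactness), `A` is small since it lies in a translate of a multiple of the ball of
the annihilator of `Y`, and `t - t'` is weak* null.
-/

namespace Pool.Agent.H75.SG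

open Set Filter Topology TopologicalSpace

variable {X : Type} [NormedAddCommGroup X] [NormedSpace ℝ X]

/-- the unit ball of the annihilator of `Y` -/
def Pp (Y : Submodule ℝ X) : Set (X →L[ℝ] ℝ) := {z | ‖z‖ ≤ 1 ∧ ∀ y ∈ Y, z y = 0}

theorem small_perp {Y : Submodule ℝ X} (hP : Small (Pp Y)) {r : ℝ} (hr : 0 ≤ r) :
    Small {z : X →L[ℝ] ℝ | ‖z‖ ≤ r ∧ ∀ y ∈ Y, z y = 0} := by
  refine (hP.hull r).sub ?_
  rintro z ⟨hz, hzY⟩ Λ c hc h
  rcases hr.eq_or_lt with h0 | h0
  · have h1 : z = 0 := norm_le_zero_iff.mp (by rw [h0]; exact hz)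
    rw [h1, map_zero, abs_zero, ← h0, zero_mul]
  · have h1 : r⁻¹ • z ∈ Pp Y := by
      refine ⟨?_, fun y hy => ?_⟩
      · rw [norm_smul, norm_inv, Real.norm_eq_abs, abs_of_pos h0, inv_mul_le_iff₀ h0, mul_one]
        exact hz
      · change r⁻¹ • z y = 0
        rw [hzY y hy, smul_zero]
    have h2 := h _ h1
    rw [map_smul, smul_eq_mul, abs_mul, abs_inv, abs_of_pos h0, inv_mul_le_iff₀ h0] at h2
    exact h2

theorem exists_ulim (t : ℕ → (X →L[ℝ] ℝ)) {M : ℝ} (h : ∀ i, ‖t i‖ ≤ M) :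
    ∃ u : X →L[ℝ] ℝ, ‖u‖ ≤ M ∧ ∀ x, Tendsto (fun i => t i x) (hyperfilter ℕ) (𝓝 (u x)) := by
  have hM : 0 ≤ M := (norm_nonneg _).trans (h 0)
  have h1 : ∀ x : X, ∃ a : ℝ, |a| ≤ M * ‖x‖ ∧
      Tendsto (fun i => t i x) (hyperfilter ℕ) (𝓝 a) := by
    intro x
    have h2 : ∀ i, t i x ∈ Icc (-(M * ‖x‖)) (M * ‖x‖) := by
      intro i
      refine abs_le.mp ?_
      calc |t i x| = ‖t i x‖ := rfl
        _ ≤ ‖t i‖ * ‖x‖ := (t i).le_opNorm x
        _ ≤ M * ‖x‖ := by
          have := h i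
          gcongr
    obtain ⟨a, ha, ha2⟩ := (isCompact_Icc (a := -(M * ‖x‖)) (b := M * ‖x‖)).ultrafilter_le_nhds
      ((hyperfilter ℕ).map fun i => t i x) (by
        rw [le_principal_iff]
        exact Filter.mem_map.mpr (Filter.univ_mem' h2))
    exact ⟨a, abs_le.mpr ha, ha2⟩
  choose g hg1 hg2 using h1
  let L : X →ₗ[ℝ] ℝ :=
    { toFun := g
      map_add' := by
        intro x y
        refine tendsto_nhds_unique (hg2 (x + y)) ?_
        refine ((hg2 x).add (hg2 y)).congr fun i => ?_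
        rw [map_add]
      map_smul' := by
        intro r x
        refine tendsto_nhds_unique (hg2 (r • x)) ?_
        refine ((hg2 x).const_mul r).congr fun i => ?_
        rw [map_smul, smul_eq_mul] }
  exact ⟨L.mkContinuous M hg1, LinearMap.mkContinuous_norm_le _ hM _, hg2⟩

theorem ts_lim [SeparableSpace X] {Y : Submodule ℝ X} (hP : Small (Pp Y)) (f : Y →L[ℝ] ℝ)
    (W : ℕ → Set (Y →L[ℝ] ℝ)) (hIH : ∀ n M, Small (Lift Y M (W n)))
    (hconv : ∀ y : Y, ∀ ε : ℝ, 0 < ε → ∃ n₀ : ℕ, ∀ n, n₀ ≤ n → ∀ g ∈ W n, |g y - f y| ≤ ε) (M : ℝ) :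
    Small (Lift Y M (insert f (⋃ n, W n))) := by
  classical
  rcases lt_or_ge M 0 with hM | hM
  · refine Small.empty.sub ?_
    rintro t ⟨ht, _⟩
    exact absurd (norm_nonneg t) (by linarith)
  let A : Set (X →L[ℝ] ℝ) := {t | ‖t‖ ≤ M ∧ t.comp Y.subtypeL = f}
  have hA : Small A := by
    rcases A.eq_empty_or_nonempty with h | ⟨t₀, ht₀⟩
    · rw [h]
      exact Small.empty
    · refine ((Small.singleton t₀).lin (small_perp hP (r := 2 * M) (by positivity)) 1 1).sub ?_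
      rintro t ⟨ht, htf⟩
      refine ⟨t₀, rfl, t - t₀, ⟨?_, fun y hy => ?_⟩, by rw [one_smul, one_smul, add_sub_cancel]⟩
      · calc ‖t - t₀‖ ≤ ‖t‖ + ‖t₀‖ := norm_sub_le _ _
          _ ≤ M + M := add_le_add ht ht₀.1
          _ = 2 * M := by ring
      · have h1 := DFunLike.congr_fun (htf.trans ht₀.2.symm) ⟨y, hy⟩
        change t y - t₀ y = 0
        exact sub_eq_zero.mpr h1
  obtain ⟨x, hx⟩ := exists_dense_seq X
  let R : ℕ → ℕ → Prop := fun k n => ∀ t ∈ Lift Y M (W n), ∃ t' ∈ A, ∀ j < k,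
    |t (x j) - t' (x j)| ≤ 1 / ((k : ℝ) + 1)
  have hR : ∀ k, ∃ n₀, ∀ n, n₀ ≤ n → R k n := by
    intro k
    by_contra hcon
    push Not at hcon
    choose φ hφ hφR using hcon
    have h1 : ∀ i, ∃ t ∈ Lift Y M (W (φ i)), ∀ t' ∈ A, ∃ j < k,
        1 / ((k : ℝ) + 1) < |t (x j) - t' (x j)| := by
      intro i
      have := hφR i
      simp only [R] at this
      push Not at this
      exact this
    choose t ht htA using h1
    obtain ⟨u, hu, hut⟩ := exists_ulim t (fun i => (ht i).1)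
    have huf : u.comp Y.subtypeL = f := by
      ext y
      have h2 : Tendsto (fun i => t i (y : X)) (hyperfilter ℕ) (𝓝 (f y)) := by
        refine Tendsto.mono_left ?_ Nat.hyperfilter_le_atTop
        rw [Metric.tendsto_atTop]
        intro ε hε
        obtain ⟨n₀, hn₀⟩ := hconv y (ε / 2) (half_pos hε)
        refine ⟨n₀, fun i hi => ?_⟩
        rw [Real.dist_eq]
        exact lt_of_le_of_lt (hn₀ (φ i) (hi.trans (hφ i)) _ (ht i).2) (half_lt_self hε)
      exact tendsto_nhds_unique (hut y) h2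
    have h3 : ∀ᶠ i in (hyperfilter ℕ : Filter ℕ), ∀ j < k,
        |t i (x j) - u (x j)| ≤ 1 / ((k : ℝ) + 1) := by
      have h4 : ∀ j ∈ Finset.range k, ∀ᶠ i in (hyperfilter ℕ : Filter ℕ),
          |t i (x j) - u (x j)| ≤ 1 / ((k : ℝ) + 1) := by
        intro j _
        have h5 := (Metric.tendsto_nhds.mp (hut (x j))) (1 / ((k : ℝ) + 1)) (by positivity)
        filter_upwards [h5] with i hi
        rw [Real.dist_eq] at hi
        exact hi.le
      have h6 := (Finset.eventually_all (Finset.range k)).mpr h4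
      filter_upwards [h6] with i hi j hj
      exact hi j (Finset.mem_range.mpr hj)
    obtain ⟨i, hi⟩ := h3.exists
    obtain ⟨j, hj, hj2⟩ := htA i u ⟨hu, huf⟩
    exact absurd (hi j hj) (not_le.mpr hj2)
  obtain ⟨N, hN⟩ := hR 0
  let κ : ℕ → ℕ := fun n => Nat.findGreatest (fun k => R k n) n
  have hκ : ∀ n, N ≤ n → R (κ n) n := fun n hn =>
    Nat.findGreatest_spec (P := fun k => R k n) (Nat.zero_le n) (hN n hn)
  have hκlim : ∀ k, ∃ n₀, ∀ n, n₀ ≤ n → k ≤ κ n := by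
    intro k
    obtain ⟨n₀, hn₀⟩ := hR k
    exact ⟨max n₀ k, fun n hn => Nat.le_findGreatest (le_trans (le_max_right _ _) hn)
      (hn₀ n (le_trans (le_max_left _ _) hn))⟩
  let G : ℕ → Set (X →L[ℝ] ℝ) := fun n => {u | N ≤ n ∧ ∃ t ∈ Lift Y M (W n), ∃ t' ∈ A,
    (∀ j < κ n, |t (x j) - t' (x j)| ≤ 1 / ((κ n : ℝ) + 1)) ∧ u = t - t'}
  have hG : Small (⋃ n, G n) := by
    refine Small.seq (f := 0) (2 * M) (fun n => ?_) ?_ ?_
    · refine ((hIH n M).lin hA 1 (-1)).sub ?_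
      rintro u ⟨_, t, ht, t', ht', _, rfl⟩
      exact ⟨t, ht, t', ht', by module⟩
    · rintro n u ⟨_, t, ht, t', ht', _, rfl⟩
      calc ‖t - t'‖ ≤ ‖t‖ + ‖t'‖ := norm_sub_le _ _
        _ ≤ M + M := add_le_add ht.1 ht'.1
        _ = 2 * M := by ring
    · intro z ε hε
      obtain ⟨j, hj⟩ : ∃ j, ‖z - x j‖ ≤ ε / (2 * (2 * M + 1)) := by
        obtain ⟨j, hw⟩ := hx.exists_mem_open
          (Metric.isOpen_ball (x := z) (ε := ε / (2 * (2 * M + 1)))) ⟨z, Metric.mem_ball_self (by positivity)⟩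
        refine ⟨j, ?_⟩
        rw [Metric.mem_ball, dist_comm, dist_eq_norm] at hw
        exact hw.le
      obtain ⟨k, hk⟩ := exists_nat_one_div_lt (half_pos hε)
      obtain ⟨n₀, hn₀⟩ := hκlim (max (j + 1) k)
      refine ⟨n₀, ?_⟩
      rintro n hn u ⟨_, t, ht, t', ht', hu, rfl⟩
      have h1 := hn₀ n hn
      have h2 := hu j (lt_of_lt_of_le (Nat.lt_succ_self j) ((le_max_left _ _).trans h1))
      have h3 : 1 / ((κ n : ℝ) + 1) ≤ ε / 2 := by
        refine le_trans ?_ hk.le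
        have h4 : (k : ℝ) ≤ κ n := by exact_mod_cast (le_max_right _ _).trans h1
        gcongr
      have h5 : ‖t - t'‖ ≤ 2 * M := by
        calc ‖t - t'‖ ≤ ‖t‖ + ‖t'‖ := norm_sub_le _ _
          _ ≤ M + M := add_le_add ht.1 ht'.1
          _ = 2 * M := by ring
      have h6 : |(t - t') (z - x j)| ≤ ε / 2 := by
        calc |(t - t') (z - x j)| = ‖(t - t') (z - x j)‖ := rfl
          _ ≤ ‖t - t'‖ * ‖z - x j‖ := (t - t').le_opNorm _
          _ ≤ 2 * M * (ε / (2 * (2 * M + 1))) := by gcongr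
          _ = ε / 2 * (2 * M / (2 * M + 1)) := by
            field_simp
          _ ≤ ε / 2 * 1 := by
            have : 2 * M / (2 * M + 1) ≤ 1 := by
              rw [div_le_one (by positivity)]
              linarith
            gcongr
          _ = ε / 2 := mul_one _
      have e : (t - t') z - (0 : X →L[ℝ] ℝ) z = (t (x j) - t' (x j)) + (t - t') (z - x j) := by
        rw [_root_.zero_apply, map_sub]
        change (t z - t' z) - 0 = (t (x j) - t' (x j)) + ((t z - t' z) - (t (x j) - t' (x j)))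
        ring
      rw [e]
      calc _ ≤ |t (x j) - t' (x j)| + |(t - t') (z - x j)| := abs_add_le _ _
        _ ≤ ε / 2 + ε / 2 := add_le_add (h2.trans h3) h6
        _ = ε := add_halves ε
  refine ((hA.union (Small.iUnion_lt N fun n _ => hIH n M)).union (hA.lin hG 1 1)).sub ?_
  rintro t ⟨ht, htS⟩
  rcases Set.mem_insert_iff.mp htS with h | h
  · exact Or.inl (Or.inl ⟨ht, h⟩)
  · obtain ⟨n, hn⟩ := Set.mem_iUnion.mp h
    rcases lt_or_ge n N with h1 | h1
    · exact Or.inl (Or.inr ⟨n, h1, ht, hn⟩)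
    · obtain ⟨t', ht', ht2⟩ := hκ n h1 t ⟨ht, hn⟩
      refine Or.inr ⟨t', ht', t - t', Set.mem_iUnion.mpr ⟨n, h1, t, ⟨ht, hn⟩, t', ht', ht2, rfl⟩, ?_⟩
      rw [one_smul, one_smul, add_sub_cancel]

end Pool.Agent.H75.SG
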